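import Pool.Agent.H15CV.Main
import Pool.Agent.H37A.Statement

/-!
# A contraction `f : Y → Spec R` bounds the iterated extensions of `𝒪_C`
-/

set_option autoImplicit false

open LaurentPolynomial

universe u

namespace Pool.Agent.DWC

variable {k : Type u} [Field k] {X : Nbhd k}

namespace CV

/-- a function `t` such that `t` is regular on `U₀` and `x t` is regular on `U₁` annihilates the
iterated extensions of `𝒪_C` -/
theorem smul_eq_zero_of_unit {E : Sh X} {n : ℕ} (hE : Loewy E 0 n) {x t : X.B}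
    (hx : X.res x = T 1) (h0 : t ∈ X.B₀) (h1 : x * t ∈ X.B₁) (m : E.M) : t • m = 0 := by
  refine Submodule.span_induction (p := fun y _ => t • y = 0) ?_ ?_ ?_ ?_ (mem_span_global hE m)
  · rintro g ⟨hg0, hg1⟩
    refine eq_zero_of_unit hE hx (E.smul₀ _ h0 _ hg0) ?_
    rw [smul_smul]
    exact E.smul₁ _ h1 _ hg1
  · exact smul_zero t
  · intro y z _ _ hy hz
    rw [smul_add, hy, hz, add_zero]
  · intro b y _ hy
    rw [smul_comm, hy, smul_zero]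

theorem mPow_kills {E : Sh X} {n : ℕ} (hE : Loewy E 0 n) {A₀ A₁ : Subalgebra k X.B} {x : X.Bˣ}
    (hx : X.res (x : X.B) = T 1) {s : Finset X.B} {N : ℕ}
    (hs : ∀ t ∈ s, X.IsoAt A₀ t ∧ X.IsoAt A₁ (x * t)) (hN : X.mPow N ≤ X.idealOf s x)
    {r : X.R} (hr : r ∈ X.mPow N) (m : E.M) : (r : X.B) • m = 0 := by
  have hts : ∀ t ∈ s, ∀ m : E.M, t • m = 0 := by
    intro t ht m
    obtain ⟨⟨h0, -⟩, h1, -⟩ := hs t ht
    exact smul_eq_zero_of_unit hE hx h0.1 h1.2 m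
  have h2 := hN hr
  unfold Nbhd.idealOf at h2
  refine Submodule.span_induction (p := fun (y : X.R) _ => (y : X.B) • m = 0) ?_ ?_ ?_ ?_ h2
  · rintro r (hr | ⟨t, ht, hr⟩)
    · exact hts _ hr m
    · rw [hr, mul_smul, hts t ht m, smul_zero]
  · exact zero_smul _ _
  · intro y z _ _ hy hz
    change ((y : X.B) + (z : X.B)) • m = 0
    rw [add_smul, hy, hz, add_zero]
  · intro b y _ hy
    change ((b : X.B) * (y : X.B)) • m = 0
    rw [mul_smul, hy, smul_zero]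

/-- products of `n` elements of `I₀ ^ N` are in `𝔪 ^ n B₀` -/
theorem mem_spanOver_pow {N : ℕ} (h : X.pow₀ N ⊆ X.spanOver X.B₀ (X.mSet 1)) (n : ℕ) :
    ∀ c ∈ (X.I₀ ^ N) ^ n, (c : X.B) ∈ Submodule.span X.B₀ (X.mSet n) := by
  induction n with
  | zero =>
    intro c _
    have h1 : (1 : X.B) ∈ X.mSet 0 := ⟨1, by
      unfold Nbhd.mPow
      rw [pow_zero, Ideal.one_eq_top]; trivial, rfl⟩
    have h2 := Submodule.smul_mem _ c (Submodule.subset_span (R := X.B₀) h1)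
    rwa [Subalgebra.smul_def, smul_eq_mul, mul_one] at h2
  | succ n ih =>
    intro c hc
    rw [pow_succ] at hc
    refine Submodule.mul_induction_on hc ?_ ?_
    · intro a ha b hb
      have h1 := ih a ha
      have h2 : (b : X.B) ∈ Submodule.span X.B₀ (X.mSet 1) := h ⟨b, hb, rfl⟩
      have h3 := Submodule.mul_mem_mul h1 h2
      rw [Submodule.span_mul_span] at h3
      refine Submodule.span_mono ?_ h3
      rintro _ ⟨_, ⟨r, hr, rfl⟩, _, ⟨r', hr', rfl⟩, rfl⟩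
      refine ⟨r * r', ?_, rfl⟩
      unfold Nbhd.mPow at hr hr' ⊢
      rw [pow_succ]
      rw [pow_one] at hr'
      exact Ideal.mul_mem_mul hr hr'
    · intro a b ha hb
      exact Submodule.add_mem _ ha hb

theorem pow_kills_of_contractsTo (hX : X.Formal) (h : ContractsTo X) :
    ∃ N : ℕ, ∀ E : Sh X, (∃ n : ℕ, Loewy E 0 n) → ∀ c ∈ X.I ^ N, ∀ m : E.M, c • m = 0 := by
  obtain ⟨N₁, hN₁, -⟩ := h.fibre
  obtain ⟨A₀, A₁, x, hal, ⟨s, N, hs, hN⟩, -⟩ := h.exists_f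
  refine ⟨N₁ * N, ?_⟩
  rintro E ⟨n, hE⟩ c hc m
  obtain ⟨ν, b', hb', h3⟩ := exists_chart hX hE _ _ hc
  have h4 : (b' : X.B) • m = 0 := by
    rw [pow_mul] at hb'
    have h5 := mem_spanOver_pow hN₁ N b' hb'
    refine Submodule.span_induction (p := fun y _ => y • m = 0) ?_ ?_ ?_ ?_ h5
    · rintro _ ⟨r, hr, rfl⟩
      exact mPow_kills hE hal.res_x hs hN hr m
    · rw [zero_smul]
    · intro y z _ _ hy hz
      rw [add_smul, hy, hz, add_zero]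
    · intro c y _ hy
      rw [Subalgebra.smul_def, smul_eq_mul, mul_smul, hy, smul_zero]
  have h6 := (h3 m).trans h4
  rw [mul_smul] at h6
  have h7 : ((X.x⁻¹ : X.Bˣ) : X.B) ^ ν • ((X.x : X.B) ^ ν • (c • m)) = 0 := by
    rw [h6, smul_zero]
  rwa [smul_smul, ← mul_pow, Units.inv_mul, one_pow, one_smul] at h7

theorem mSet_le (X : Nbhd k) (N : ℕ) : X.mSet N ⊆ (X.I ^ N : Ideal X.B) := by
  rintro _ ⟨r, hr, rfl⟩
  unfold Nbhd.mPow Nbhd.m at hr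
  have h1 := Ideal.mem_map_of_mem (algebraMap X.R X.B) hr
  rw [Ideal.map_pow] at h1
  exact Ideal.pow_right_mono Ideal.map_comap_le N h1

theorem spanOver_le (X : Nbhd k) (S : Subalgebra k X.B) (N : ℕ) :
    X.spanOver S (X.mSet N) ⊆ (X.I ^ N : Ideal X.B) := by
  intro b hb
  have hb' : b ∈ Submodule.span S (X.mSet N) := hb
  refine Submodule.span_induction (p := fun y _ => y ∈ (X.I ^ N : Ideal X.B)) ?_ ?_ ?_ ?_ hb'
  · intro y hy; exact mSet_le X N hy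
  · exact Ideal.zero_mem _
  · intro y z _ _ hy hz; exact Ideal.add_mem _ hy hz
  · intro c y _ hy
    rw [Subalgebra.smul_def, smul_eq_mul]
    exact Ideal.mul_mem_left _ _ hy

/-- modulo a power of the ideal of `C` the functions on `U₀ ∩ U₁` are the `a / x ^ n` -/
theorem exists_div (hX : X.Formal) {A₀ A₁ : Subalgebra k X.B} {x : X.Bˣ}
    (hal : IsAlgebraization X A₀ A₁ x) (N : ℕ) (b : X.B) :
    ∃ a ∈ A₀, ∃ n : ℕ, ∃ i ∈ X.I ^ N, b = ((x⁻¹ : X.Bˣ) : X.B) ^ n * a + i := by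
  have hxx : (x : X.B) * ((x⁻¹ : X.Bˣ) : X.B) = 1 := x.mul_inv
  have hpow : ∀ n : ℕ, (x : X.B) ^ n * ((x⁻¹ : X.Bˣ) : X.B) ^ n = 1 := fun n => by
    rw [← mul_pow, hxx, one_pow]
  let D : Subalgebra k X.B :=
    { carrier := {b | ∃ a ∈ A₀, ∃ n : ℕ, ∃ i ∈ X.I ^ N, b = ((x⁻¹ : X.Bˣ) : X.B) ^ n * a + i}
      mul_mem' := by
        rintro _ _ ⟨a, ha, n, i, hi, rfl⟩ ⟨a', ha', n', i', hi', rfl⟩
        refine ⟨a * a', A₀.mul_mem ha ha', n + n',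
          ((x⁻¹ : X.Bˣ) : X.B) ^ n * a * i' + i * (((x⁻¹ : X.Bˣ) : X.B) ^ n' * a' + i'),
          Ideal.add_mem _ (Ideal.mul_mem_left _ _ hi') (Ideal.mul_mem_right _ _ hi), by ring⟩
      add_mem' := by
        rintro _ _ ⟨a, ha, n, i, hi, rfl⟩ ⟨a', ha', n', i', hi', rfl⟩
        refine ⟨(x : X.B) ^ n' * a + (x : X.B) ^ n * a',
          A₀.add_mem (A₀.mul_mem (A₀.pow_mem hal.glue.x_mem _) ha)
            (A₀.mul_mem (A₀.pow_mem hal.glue.x_mem _) ha'), n + n', i + i',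
          Ideal.add_mem _ hi hi', ?_⟩
        rw [pow_add]
        linear_combination (-(((x⁻¹ : X.Bˣ) : X.B) ^ n * a)) * hpow n' -
          (((x⁻¹ : X.Bˣ) : X.B) ^ n' * a') * hpow n
      algebraMap_mem' := fun c => ⟨_, A₀.algebraMap_mem c, 0, 0, Ideal.zero_mem _, by
        rw [pow_zero, one_mul, add_zero]⟩ }
  have hmem : ∀ b, b ∈ D ↔ ∃ a ∈ A₀, ∃ n : ℕ, ∃ i ∈ X.I ^ N,
      b = ((x⁻¹ : X.Bˣ) : X.B) ^ n * a + i := fun b => Iff.rfl
  have hI : ∀ i ∈ X.I ^ N, i ∈ D := fun i hi => (hmem i).2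
    ⟨0, A₀.zero_mem, 0, i, hi, by rw [mul_zero, zero_add]⟩
  have hB₀ : ∀ b ∈ X.B₀, b ∈ D := by
    intro b hb
    obtain ⟨a, ha, h⟩ := (hal.completion₀.2 N).1 b hb
    exact (hmem b).2 ⟨a, ha, 0, b - a, spanOver_le X _ N h, by rw [pow_zero, one_mul]; ring⟩
  have hxinv : ((x⁻¹ : X.Bˣ) : X.B) ∈ D := (hmem _).2
    ⟨1, A₀.one_mem, 1, 0, Ideal.zero_mem _, by rw [pow_one, mul_one, add_zero]⟩
  -- the inverse of the coordinate of `X`
  obtain ⟨v, hv⟩ : ∃ v : X.Bˣ, v = x⁻¹ * X.x := ⟨_, rfl⟩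
  have hvD : (v : X.B) ∈ D := by
    rw [hv, Units.val_mul]
    exact D.mul_mem hxinv (hB₀ _ X.x_mem)
  have hv1 : 1 - (v : X.B) ∈ X.I := by
    rw [Nbhd.mem_I, map_sub, map_one, hv, Units.val_mul, map_mul, X.res_x]
    have h1 := congrArg X.res hxx
    rw [map_mul, map_one, hal.res_x] at h1
    have h2 : X.res ((x⁻¹ : X.Bˣ) : X.B) * T 1 = 1 := by rw [mul_comm]; exact h1
    rw [h2, sub_self]
  have hvinv : ((v⁻¹ : X.Bˣ) : X.B) ∈ D := by
    have h1 : (v : X.B) * ∑ j ∈ Finset.range N, (1 - (v : X.B)) ^ j = 1 - (1 - (v : X.B)) ^ N := by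
      have h2 := mul_geom_sum (1 - (v : X.B)) N
      linear_combination (-1 : X.B) * h2
    have h3 : ((v⁻¹ : X.Bˣ) : X.B) = ∑ j ∈ Finset.range N, (1 - (v : X.B)) ^ j
        + ((v⁻¹ : X.Bˣ) : X.B) * (1 - (v : X.B)) ^ N := by
      have h4 : ((v⁻¹ : X.Bˣ) : X.B) * (v : X.B) = 1 := v.inv_mul
      linear_combination (-((v⁻¹ : X.Bˣ) : X.B)) * h1 +
        (∑ j ∈ Finset.range N, (1 - (v : X.B)) ^ j) * h4
    rw [h3]
    exact D.add_mem (D.sum_mem fun j _ => D.pow_mem (D.sub_mem D.one_mem hvD) j)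
      (hI _ (Ideal.mul_mem_left _ _ (Ideal.pow_mem_pow hv1 N)))
  have hXinv : ((X.x⁻¹ : X.Bˣ) : X.B) ∈ D := by
    have h1 : (X.x⁻¹ : X.Bˣ) = v⁻¹ * x⁻¹ := by
      rw [hv, mul_inv_rev, inv_inv, mul_assoc, mul_inv_cancel, mul_one]
    rw [h1, Units.val_mul]
    exact D.mul_mem hvinv hxinv
  obtain ⟨ν, c, hc, h⟩ := hX.loc₀ N b
  have h1 : b = ((X.x⁻¹ : X.Bˣ) : X.B) ^ ν * ((X.x : X.B) ^ ν * b + c)
      - ((X.x⁻¹ : X.Bˣ) : X.B) ^ ν * c := by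
    have h2 : ((X.x⁻¹ : X.Bˣ) : X.B) ^ ν * (X.x : X.B) ^ ν = 1 := by
      rw [← mul_pow, Units.inv_mul, one_pow]
    linear_combination (-b) * h2
  refine (hmem b).1 ?_
  rw [h1]
  exact D.sub_mem (D.mul_mem (D.pow_mem hXinv ν) (hB₀ _ h))
    (hI _ (Ideal.mul_mem_left _ _ hc))

theorem h1_mod (hX : X.Formal) {A₀ A₁ : Subalgebra k X.B} {x : X.Bˣ}
    (hal : IsAlgebraization X A₀ A₁ x) (N : ℕ) (b : X.B) :
    ∃ b₀ ∈ X.B₀, ∃ b₁ ∈ X.B₁, ∃ i ∈ X.I ^ N, b = b₀ + b₁ + i := by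
  obtain ⟨a, ha, n, i, hi, rfl⟩ := exists_div hX hal N b
  obtain ⟨a₀, ha₀, a₁, ha₁, h⟩ := hal.h1 a ha n
  exact ⟨a₀, hal.completion₀.1 ha₀, a₁, hal.completion₁.1 ha₁, i, hi, by rw [h]⟩

end CV

/-- If `C` contracts to a point, then its noncommutative deformation algebra is
finite-dimensional. -/
theorem finVersal_of_contractsTo (hX : X.Formal) (h : ContractsTo X) : FinVersal X := by
  obtain ⟨N, hN⟩ := CV.pow_kills_of_contractsTo hX h
  obtain ⟨A₀, A₁, x, hal, -⟩ := h.exists_f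
  obtain ⟨s₀, -, h₀⟩ := fin_chart₀ hX N
  obtain ⟨s₁, -, h₁⟩ := fin_chart₁ hX N
  obtain ⟨Q, g, hQ⟩ := CV.exists_represents (CV.h1_mod hX hal N) hN h₀ h₁
  exact finVersal_of_represents hQ

end Pool.Agent.DWC
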