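import Pool.Agent.H15CV.SubLoewy

/-!
# The number of global sections of a cyclic iterated extension of `𝒪_C` is bounded
-/

set_option autoImplicit false

open LaurentPolynomial

universe u

namespace Pool.Agent.DWC

variable {k : Type u} [Field k] {X : Nbhd k}

namespace CV

/-- an iterated extension of `𝒪_C` is generated by its global sections -/
theorem mem_span_global {E : Sh X} {n : ℕ} (hE : Loewy E 0 n) (m : E.M) :
    m ∈ Submodule.span X.B {g : E.M | g ∈ E.M₀ ∧ g ∈ E.M₁} := by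
  obtain ⟨P, hP0, hPn, hP⟩ := hE
  have key : ∀ j ≤ n, P j ≤ Submodule.span X.B {g : E.M | g ∈ E.M₀ ∧ g ∈ E.M₁} := by
    intro j
    induction j with
    | zero => intro _; rw [hP0]; exact bot_le
    | succ j ih =>
      intro hj m hm
      obtain ⟨r, p, q, hp, hq, hpq, hgen⟩ := gen_step (hP j (by omega)).2
      choose a ha c hc ha' hc' hac using fun i => piSub_chain hP0 hP j (by omega) _ (hpq i)
      have hg : ∀ i, p i - a i = q i + (X.w : X.B) • c i := by
        intro i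
        have h3 := hac i
        rw [sub_eq_iff_eq_add] at h3
        rw [h3]; abel
      have hgm : ∀ i, p i ∈ Submodule.span X.B {g : E.M | g ∈ E.M₀ ∧ g ∈ E.M₁} := by
        intro i
        have e : p i = (p i - a i) + a i := by abel
        rw [e]
        refine Submodule.add_mem _ (Submodule.subset_span ⟨E.M₀.sub_mem (hp i).2 (ha i), ?_⟩)
          (ih (by omega) (ha' i))
        rw [hg i]
        exact E.M₁.add_mem (hq i).2 (E.smul₁ _ X.w_mem _ (hc i))
      obtain ⟨ν, hν⟩ := E.loc₀ m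
      obtain ⟨b, hb, hbm⟩ := hgen _ ((P (j + 1)).smul_mem ((X.x : X.B) ^ ν) hm) hν
      have h4 : (X.x : X.B) ^ ν • m ∈ Submodule.span X.B {g : E.M | g ∈ E.M₀ ∧ g ∈ E.M₁} := by
        have e : (X.x : X.B) ^ ν • m = ((X.x : X.B) ^ ν • m - ∑ i, b i • p i)
          + ∑ i, b i • p i := by abel
        rw [e]
        exact Submodule.add_mem _ (ih (by omega) hbm)
          (Submodule.sum_mem _ fun i _ => Submodule.smul_mem _ _ (hgm i))
      have h5 := Submodule.smul_mem _ (((X.x⁻¹ : X.Bˣ) : X.B) ^ ν) h4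
      rwa [smul_smul, ← mul_pow, Units.inv_mul, one_pow, one_smul] at h5
  exact key n le_rfl (by rw [hPn]; trivial)

theorem eq_zero_of_no_global {E : Sh X} {n : ℕ} (hE : Loewy E 0 n)
    (h : ∀ g ∈ E.M₀, g ∈ E.M₁ → g = 0) (m : E.M) : m = 0 := by
  have h1 := mem_span_global hE m
  have h2 : {g : E.M | g ∈ E.M₀ ∧ g ∈ E.M₁} ⊆ {0} := fun g hg => h g hg.1 hg.2
  have h3 := Submodule.span_mono (R := X.B) h2 h1
  rwa [Submodule.span_singleton_eq_bot.2 rfl, Submodule.mem_bot] at h3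

/-- a global section which vanishes at `0` is zero -/
theorem eq_zero_of_unit {E : Sh X} {n : ℕ} (hE : Loewy E 0 n) {x : X.B} (hx : X.res x = T 1)
    {m : E.M} (h0 : m ∈ E.M₀) (h1 : x • m ∈ E.M₁) : m = 0 := by
  obtain ⟨P, hP0, hPn, hP⟩ := hE
  have key : ∀ j ≤ n, m ∈ P j → m = 0 := by
    intro j
    induction j with
    | zero =>
      intro _ hm
      rwa [hP0, Submodule.mem_bot] at hm
    | succ j ih =>
      intro hj hm
      refine ih (by omega) ?_
      obtain ⟨r, θ, hθ, -, hker, hR0, hR1⟩ := (hP j (by omega)).2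
      have h3 : θ ⟨m, hm⟩ = 0 := by
        funext i
        have hf := (hR0 (θ ⟨m, hm⟩)).1 ⟨_, h0, rfl⟩ i
        have hg := (hR1 (θ (x • ⟨m, hm⟩))).1 ⟨_, h1, rfl⟩ i
        rw [hθ, hx] at hg
        have h4 := T_mem_RegInf (-1) hg
        rw [← mul_assoc, ← T_add, neg_add_cancel, T_zero, one_mul, zero_add] at h4
        exact reg_inter hf h4
      exact (hker _).1 h3
  exact key n le_rfl (by rw [hPn]; trivial)

theorem eq_zero_of_x {E : Sh X} {n : ℕ} (hE : Loewy E 0 n) {m : E.M} (h0 : m ∈ E.M₀)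
    (h1 : (X.x : X.B) • m ∈ E.M₁) : m = 0 :=
  eq_zero_of_unit hE X.res_x h0 h1

/-- the `k`-module structure on the sections -/
@[reducible] noncomputable def modk (E : Sh X) : Module k E.M :=
  Module.compHom E.M (algebraMap k X.B)

attribute [local instance] modk

theorem modk_smul (E : Sh X) (c : k) (m : E.M) : c • m = algebraMap k X.B c • m := rfl

/-- the global sections -/
def h0 (E : Sh X) : Submodule k E.M where
  carrier := {g | g ∈ E.M₀ ∧ g ∈ E.M₁}
  add_mem' := fun ha hb => ⟨E.M₀.add_mem ha.1 hb.1, E.M₁.add_mem ha.2 hb.2⟩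
  zero_mem' := ⟨E.M₀.zero_mem, E.M₁.zero_mem⟩
  smul_mem' := fun c _ h => ⟨E.smul₀ _ (X.B₀.algebraMap_mem c) _ h.1,
    E.smul₁ _ (X.B₁.algebraMap_mem c) _ h.2⟩

/-- the sections of `E` over `U₀` which vanish at `0` -/
def xM₀ (E : Sh X) : Submodule k E.M where
  carrier := {g | ∃ m ∈ E.M₀, g = (X.x : X.B) • m}
  add_mem' := by
    rintro _ _ ⟨a, ha, rfl⟩ ⟨b, hb, rfl⟩
    exact ⟨a + b, E.M₀.add_mem ha hb, (smul_add _ _ _).symm⟩
  zero_mem' := ⟨0, E.M₀.zero_mem, (smul_zero _).symm⟩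
  smul_mem' := by
    rintro c _ ⟨a, ha, rfl⟩
    refine ⟨algebraMap k X.B c • a, E.smul₀ _ (X.B₀.algebraMap_mem c) _ ha, ?_⟩
    change algebraMap k X.B c • ((X.x : X.B) • a) = _
    exact smul_comm _ _ _

/-- the map on global sections -/
def h0map {E F : Sh X} {u : E.M →ₗ[X.B] F.M} (hu : IsMap E F u) : h0 E →ₗ[k] h0 F where
  toFun g := ⟨u g, hu.map₀ _ g.2.1, hu.map₁ _ g.2.2⟩
  map_add' _ _ := Subtype.ext (map_add u _ _)
  map_smul' c _ := Subtype.ext (map_smul u (algebraMap k X.B c) _)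

/-- a linear algebra estimate -/
theorem finrank_bound {V : Type u} [AddCommGroup V] [Module k V] (H L : Submodule k V)
    (hHL : ∀ v ∈ H, v ∈ L → v = 0) (S : Finset V)
    (hS : ∀ v ∈ H, ∃ l ∈ L, ∃ s ∈ Submodule.span k (S : Set V), v = l + s) :
    Module.Finite k H ∧ Module.finrank k H ≤ S.card := by
  classical
  let q : V →ₗ[k] V ⧸ L := L.mkQ
  have hfin : Module.Finite k (Submodule.span k ((S.image q : Finset (V ⧸ L)) : Set (V ⧸ L))) :=
    inferInstance
  have hmem : ∀ v : H, q v ∈ Submodule.span k ((S.image q : Finset (V ⧸ L)) : Set (V ⧸ L)) := by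
    rintro ⟨v, hv⟩
    obtain ⟨l, hl, s, hs, rfl⟩ := hS v hv
    change q (l + s) ∈ _
    have h1 : q l = 0 := (Submodule.Quotient.mk_eq_zero L).2 hl
    rw [map_add, h1, zero_add, Finset.coe_image, ← Submodule.map_span]
    exact Submodule.mem_map_of_mem hs
  let f : H →ₗ[k] Submodule.span k ((S.image q : Finset (V ⧸ L)) : Set (V ⧸ L)) :=
    (q.comp H.subtype).codRestrict _ hmem
  have hf : Function.Injective f := by
    rw [injective_iff_map_eq_zero]
    rintro ⟨v, hv⟩ h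
    have h1 : q v = 0 := congrArg Subtype.val h
    exact Subtype.ext (hHL v hv ((Submodule.Quotient.mk_eq_zero L).1 h1))
  refine ⟨Module.Finite.of_injective f hf, ?_⟩
  calc Module.finrank k H ≤ Module.finrank k
        (Submodule.span k ((S.image q : Finset (V ⧸ L)) : Set (V ⧸ L))) :=
        LinearMap.finrank_le_finrank_of_injective hf
    _ ≤ (S.image q).card := finrank_span_finset_le_card _
    _ ≤ S.card := Finset.card_image_le

/-- `(E, e)` is cyclic -/
def Cyclic (E : Sh X) (e : E.M) : Prop :=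
  (∃ n, Loewy E 0 n) ∧ e ∈ E.M₀ ∧ e ∈ E.M₁ ∧ ∀ A : Submodule X.B E.M, PiSub E A → e ∈ A → A = ⊤

theorem Cyclic.bound {N : ℕ} {s₀ s₁ : Finset X.B}
    (h1 : ∀ b : X.B, ∃ b₀ ∈ X.B₀, ∃ b₁ ∈ X.B₁, ∃ i ∈ X.I ^ N, b = b₀ + b₁ + i)
    (hK : ∀ E : Sh X, (∃ n, Loewy E 0 n) → ∀ c ∈ X.I ^ N, ∀ m : E.M, c • m = 0)
    (hf₀ : ∀ b ∈ X.B₀, ∃ b' ∈ X.B₀, ∃ i ∈ X.I ^ N, ∃ c : X.B → k,
      b = (X.x : X.B) * b' + i + ∑ g ∈ s₀, c g • g)
    (hf₁ : ∀ b ∈ X.B₁, ∃ b' ∈ X.B₁, ∃ i ∈ X.I ^ N, ∃ c : X.B → k,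
      b = (X.w : X.B) * b' + i + ∑ g ∈ s₁, c g • g)
    {E : Sh X} {e : E.M} (hE : Cyclic E e) :
    Module.Finite k (h0 E) ∧ Module.finrank k (h0 E) ≤ (s₁.card + 1) * s₀.card := by
  classical
  obtain ⟨⟨n, hL⟩, he0, he1, hcyc⟩ := hE
  have hns := noSec hL
  have hK' := hK E ⟨n, hL⟩
  choose a ha c hc _ _ hac using fun η : X.B => piSub_top hL (η • e) trivial
  -- the generators
  let G : Finset E.M := insert e (s₁.image a)
  have hG0 : ∀ g ∈ G, g ∈ E.M₀ := by
    intro g hg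
    rcases Finset.mem_insert.1 hg with rfl | hg
    · exact he0
    · obtain ⟨η, -, rfl⟩ := Finset.mem_image.1 hg
      exact ha η
  have hGcard : G.card ≤ s₁.card + 1 :=
    (Finset.card_insert_le _ _).trans (Nat.add_le_add_right Finset.card_image_le 1)
  let A₀ : Submodule X.B₀ E.M := Submodule.span X.B₀ (G : Set E.M)
  let A : Submodule X.B E.M := Submodule.span X.B (G : Set E.M)
  have hA₀ : ∀ m ∈ A₀, m ∈ E.M₀ := by
    intro m hm
    refine Submodule.span_induction (p := fun y _ => y ∈ E.M₀) hG0 E.M₀.zero_mem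
      (fun y z _ _ hy hz => E.M₀.add_mem hy hz) (fun b y _ hy => ?_) hm
    rw [Subalgebra.smul_def]
    exact E.smul₀ _ b.2 _ hy
  have hA₀A : ∀ m ∈ A₀, m ∈ A := by
    intro m hm
    refine Submodule.span_induction (p := fun y _ => y ∈ A)
      (fun g hg => Submodule.subset_span hg) A.zero_mem
      (fun y z _ _ hy hz => A.add_mem hy hz) (fun b y _ hy => ?_) hm
    rw [Subalgebra.smul_def]
    exact A.smul_mem _ hy
  have heG : e ∈ A₀ := Submodule.subset_span (Finset.mem_coe.2 (Finset.mem_insert_self _ _))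
  have haG : ∀ η ∈ s₁, a η ∈ A₀ := fun η hη => Submodule.subset_span
    (Finset.mem_coe.2 (Finset.mem_insert_of_mem (Finset.mem_image_of_mem _ hη)))
  have hsm : ∀ b ∈ X.B₀, ∀ m ∈ A₀, b • m ∈ A₀ := by
    intro b hb m hm
    exact A₀.smul_mem ⟨b, hb⟩ hm
  -- multiples of `e`
  have c1 : ∀ b : X.B, ∃ a' ∈ A₀, ∃ c' ∈ E.M₁, b • e = a' + (X.w : X.B) • c' := by
    intro b
    obtain ⟨b₀, hb₀, b₁, hb₁, i', hi', rfl⟩ := h1 b
    obtain ⟨b', hb', i, hi, t, ht⟩ := hf₁ b₁ hb₁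
    refine ⟨b₀ • e + ∑ η ∈ s₁, algebraMap k X.B (t η) • a η,
      A₀.add_mem (hsm _ hb₀ _ heG)
        (A₀.sum_mem fun η hη => hsm _ (X.B₀.algebraMap_mem _) _ (haG η hη)),
      b' • e + ∑ η ∈ s₁, algebraMap k X.B (t η) • c η,
      E.M₁.add_mem (E.smul₁ _ hb' _ he1)
        (E.M₁.sum_mem fun η _ => E.smul₁ _ (X.B₁.algebraMap_mem _) _ (hc η)), ?_⟩
    have h2 : (∑ η ∈ s₁, t η • η) • e = ∑ η ∈ s₁, algebraMap k X.B (t η) • (a η
        + (X.w : X.B) • c η) := by
      rw [Finset.sum_smul]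
      refine Finset.sum_congr rfl fun η _ => ?_
      rw [← hac η, Algebra.smul_def, mul_smul]
    rw [ht, add_smul, add_smul, add_smul, add_smul, hK' i hi, hK' i' hi', add_zero, add_zero,
      mul_smul, h2, smul_add]
    simp only [smul_add, Finset.sum_add_distrib, Finset.smul_sum]
    have h3 : ∀ η ∈ s₁, algebraMap k X.B (t η) • (X.w : X.B) • c η
        = (X.w : X.B) • algebraMap k X.B (t η) • c η := fun η _ => smul_comm _ _ _
    rw [Finset.sum_congr rfl h3]
    abel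
  have c2 : ∀ b : X.B, ∀ η ∈ s₁, ∃ a' ∈ A₀, ∃ c' ∈ E.M₁, b • a η = a' + (X.w : X.B) • c' := by
    intro b η hη
    obtain ⟨b₀, hb₀, b₁, hb₁, i', hi', rfl⟩ := h1 b
    obtain ⟨a', ha', c', hc', h⟩ := c1 (b₁ * η)
    refine ⟨b₀ • a η + a', A₀.add_mem (hsm _ hb₀ _ (haG η hη)) ha', c' - b₁ • c η,
      E.M₁.sub_mem hc' (E.smul₁ _ hb₁ _ (hc η)), ?_⟩
    have h2 : a η = η • e - (X.w : X.B) • c η := by rw [hac η]; abel
    have h3 : b₁ • a η = (b₁ * η) • e - (X.w : X.B) • b₁ • c η := by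
      rw [h2, smul_sub, smul_smul, smul_comm b₁]
    rw [add_smul, add_smul, hK' i' hi', add_zero, h3, h, smul_sub]
    abel
  have c3 : ∀ m ∈ A, ∃ a' ∈ A₀, ∃ c' ∈ E.M₁, m = a' + (X.w : X.B) • c' := by
    intro m hm
    have h2 : ∀ b : X.B, ∃ a' ∈ A₀, ∃ c' ∈ E.M₁, b • m = a' + (X.w : X.B) • c' := by
      refine Submodule.span_induction
        (p := fun y _ => ∀ b : X.B, ∃ a' ∈ A₀, ∃ c' ∈ E.M₁, b • y = a' + (X.w : X.B) • c')
        ?_ ?_ ?_ ?_ hm
      · intro g hg b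
        rcases Finset.mem_insert.1 (Finset.mem_coe.1 hg) with rfl | hg
        · exact c1 b
        · obtain ⟨η, hη, rfl⟩ := Finset.mem_image.1 hg
          exact c2 b η hη
      · intro b
        exact ⟨0, A₀.zero_mem, 0, E.M₁.zero_mem, by simp⟩
      · intro y z _ _ hy hz b
        obtain ⟨a', ha', c', hc', h⟩ := hy b
        obtain ⟨a'', ha'', c'', hc'', h'⟩ := hz b
        exact ⟨a' + a'', A₀.add_mem ha' ha'', c' + c'', E.M₁.add_mem hc' hc'', by
          rw [smul_add, h, h', smul_add]; abel⟩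
      · intro b' y _ hy b
        rw [smul_smul]
        exact hy _
    have h3 := h2 1
    rwa [one_smul] at h3
  have hAtop : A = ⊤ := by
    refine hcyc A ?_ (hA₀A e heG)
    intro m hm
    obtain ⟨a', ha', c', hc', h⟩ := c3 m hm
    refine ⟨a', hA₀ _ ha', c', hc', hA₀A _ ha', ?_, h⟩
    refine mem_of_w_smul_mem ?_
    have h4 : (X.w : X.B) • c' = m - a' := by rw [h]; abel
    rw [h4]
    exact A.sub_mem hm (hA₀A _ ha')
  have hM₀ : ∀ m ∈ E.M₀, m ∈ A₀ := by
    intro m hm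
    obtain ⟨a', ha', c', hc', h⟩ := c3 m (by rw [hAtop]; trivial)
    obtain ⟨h4, -⟩ := hns.unique hm (hA₀ _ ha') E.M₁.zero_mem hc' (by
      rw [smul_zero, add_zero, ← h])
    rw [h4]; exact ha'
  -- the estimate
  let S : Finset E.M := (G ×ˢ s₀).image fun p => p.2 • p.1
  have hScard : S.card ≤ (s₁.card + 1) * s₀.card := by
    refine Finset.card_image_le.trans ?_
    rw [Finset.card_product]
    exact Nat.mul_le_mul_right _ hGcard
  have hdec : ∀ m ∈ A₀, ∀ b ∈ X.B₀, ∃ l ∈ xM₀ E, ∃ s ∈ Submodule.span k (S : Set E.M),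
      b • m = l + s := by
    intro m hm
    refine Submodule.span_induction
      (p := fun y _ => ∀ b ∈ X.B₀, ∃ l ∈ xM₀ E, ∃ s ∈ Submodule.span k (S : Set E.M),
        b • y = l + s) ?_ ?_ ?_ ?_ hm
    · intro g hg b hb
      obtain ⟨b', hb', i, hi, t, ht⟩ := hf₀ b hb
      refine ⟨(X.x : X.B) • (b' • g), ⟨_, E.smul₀ _ hb' _ (hG0 g hg), rfl⟩,
        ∑ s ∈ s₀, t s • (s • g), Submodule.sum_mem _ fun s hs => Submodule.smul_mem _ _
          (Submodule.subset_span (Finset.mem_coe.2 (Finset.mem_image.2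
            ⟨(g, s), Finset.mem_product.2 ⟨hg, hs⟩, rfl⟩))), ?_⟩
      have h2 : (∑ s ∈ s₀, t s • s) • g = ∑ s ∈ s₀, t s • (s • g) := by
        rw [Finset.sum_smul]
        refine Finset.sum_congr rfl fun s _ => ?_
        rw [Algebra.smul_def, mul_smul]
        rfl
      rw [ht, add_smul, add_smul, hK' i hi, add_zero, mul_smul, h2]
    · intro b _
      exact ⟨0, Submodule.zero_mem _, 0, Submodule.zero_mem _, by simp⟩
    · intro y z _ _ hy hz b hb
      obtain ⟨a', ha', c', hc', h⟩ := hy b hb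
      obtain ⟨a'', ha'', c'', hc'', h'⟩ := hz b hb
      exact ⟨a' + a'', Submodule.add_mem _ ha' ha'', c' + c'', Submodule.add_mem _ hc' hc'', by
        rw [smul_add, h, h']; abel⟩
    · intro b' y _ hy b hb
      rw [Subalgebra.smul_def, smul_smul]
      exact hy _ (X.B₀.mul_mem hb b'.2)
  have hfin := finrank_bound (h0 E) (xM₀ E)
    (by
      rintro v hv ⟨m, hm, rfl⟩
      rw [eq_zero_of_x hL hm hv.2, smul_zero]) S
    (by
      intro v hv
      have h2 := hdec v (hM₀ v hv.1) 1 X.B₀.one_mem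
      rwa [one_smul] at h2)
  exact ⟨hfin.1, hfin.2.trans hScard⟩

end CV

end Pool.Agent.DWC
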