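import Pool.Agent.DWX.Contract
import Pool.Agent.DWC.Kill

/-!
# If `C` contracts then the iterated extensions of `𝒪_C` are killed by one power of its ideal

The global sections of `𝒪(-1)` annihilate every iterated extension `E` of `𝒪_C`: they map the
global sections of `E` to global sections of `E(-1)`, and there are none.
-/

set_option autoImplicit false

open LaurentPolynomial

universe u

namespace Pool.Agent.DWC

variable {k : Type u} [Field k] {X : Nbhd k}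

namespace CV

theorem coeff_T_mul (f : k[T;T⁻¹]) (a b : ℤ) : (T a * f).coeff b = f.coeff (b - a) := by
  have h : b = a + (b - a) := by ring
  conv_lhs => rw [h]
  exact (AddMonoidAlgebra.coeff_single_mul_add f (1 : k) a (b - a)).trans (one_mul _)

theorem coeff_C_mul_T (a : k) (n i : ℤ) :
    (C a * T n : k[T;T⁻¹]).coeff i = if n = i then a else 0 := by
  rw [← single_eq_C_mul_T, AddMonoidAlgebra.coeff_single, Finsupp.single_apply]

theorem eq_zero_of_reg {f g : k[T;T⁻¹]} (hf : f ∈ Reg0 k) (hg : g ∈ RegInf k 0)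
    (h : f = T (-1) * g) : f = 0 := by
  apply AddMonoidAlgebra.coeff_injective
  ext i
  rcases lt_or_ge i 0 with hi | hi
  · rw [hf i hi]; rfl
  · rw [h, coeff_T_mul, hg _ (by omega)]; rfl

/-- a Laurent polynomial is the sum of a part regular at `0` and a part regular at `∞` -/
theorem exists_split (X : Nbhd k) (f : k[T;T⁻¹]) :
    ∃ b₀ ∈ X.B₀, ∃ b₁ ∈ X.B₁, f = X.res b₀ + T (-1) * X.res b₁ := by
  induction f using LaurentPolynomial.induction_on' with
  | add p q hp hq =>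
    obtain ⟨a, ha, c, hc, rfl⟩ := hp
    obtain ⟨a', ha', c', hc', rfl⟩ := hq
    exact ⟨a + a', X.B₀.add_mem ha ha', c + c', X.B₁.add_mem hc hc', by
      rw [map_add, map_add]; ring⟩
  | C_mul_T n a =>
    rcases lt_or_ge n 0 with hn | hn
    · obtain ⟨j, rfl⟩ : ∃ j : ℕ, n = -((j : ℤ) + 1) := ⟨(-n - 1).toNat, by omega⟩
      refine ⟨0, X.B₀.zero_mem, algebraMap k X.B a * (X.w : X.B) ^ j,
        X.B₁.mul_mem (X.B₁.algebraMap_mem a) (X.B₁.pow_mem X.w_mem j), ?_⟩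
      rw [map_zero, zero_add, map_mul, map_pow, X.res_w, T_pow, AlgHom.commutes]
      have h : (T (-((j : ℤ) + 1)) : k[T;T⁻¹]) = T (-1) * T ((j : ℤ) * (-1)) := by
        rw [← T_add]; congr 1; ring
      rw [h]
      change C a * (T (-1) * T ((j : ℤ) * (-1))) = T (-1) * (C a * _)
      ring
    · obtain ⟨j, rfl⟩ : ∃ j : ℕ, n = (j : ℤ) := ⟨n.toNat, by omega⟩
      refine ⟨algebraMap k X.B a * (X.x : X.B) ^ j,
        X.B₀.mul_mem (X.B₀.algebraMap_mem a) (X.B₀.pow_mem X.x_mem j), 0, X.B₁.zero_mem, ?_⟩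
      rw [map_zero, mul_zero, add_zero, map_mul, map_pow, X.res_x, T_pow, mul_one,
        AlgHom.commutes]
      rfl

theorem T_mul_mem {g : k[T;T⁻¹]} (hg : g ∈ RegInf k 0) : T (-1) * g ∈ RegInf k 0 := by
  intro i hi
  rw [coeff_T_mul]
  exact hg _ (by omega)

theorem exists_res₀ {f : k[T;T⁻¹]} (hf : f ∈ Reg0 k) : ∃ b ∈ X.B₀, X.res b = f := by
  obtain ⟨b₀, h₀, b₁, h₁, h⟩ := exists_split X f
  refine ⟨b₀, h₀, ?_⟩
  have h2 : f - X.res b₀ = 0 := by
    refine eq_zero_of_reg (g := X.res b₁) ?_ (X.res₁ _ h₁) (by rw [h]; ring)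
    intro i hi
    rw [AddMonoidAlgebra.coeff_sub, Finsupp.sub_apply, hf i hi, X.res₀ _ h₀ i hi, sub_zero]
  exact (sub_eq_zero.1 h2).symm

section Layer

variable {E : Sh X} {P₁ P₂ : Submodule X.B E.M}

/-- no sections of `E(-1)` -/
theorem noSec_step (h : IsLayer E 0 P₁ P₂) {m : E.M} (hm : m ∈ P₂) (h0 : m ∈ E.M₀)
    (h1 : ∃ m' ∈ E.M₁, m = (X.w : X.B) • m') : m ∈ P₁ := by
  obtain ⟨r, θ, hθ, -, hker, hR0, hR1⟩ := h
  obtain ⟨m', hm', rfl⟩ := h1
  have hm2 : m' ∈ P₂ := by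
    have h2 := P₂.smul_mem ((X.w⁻¹ : X.Bˣ) : X.B) hm
    rwa [smul_smul, Units.inv_mul, one_smul] at h2
  have e : (⟨(X.w : X.B) • m', hm⟩ : P₂) = (X.w : X.B) • ⟨m', hm2⟩ := rfl
  have h3 : θ ⟨(X.w : X.B) • m', hm⟩ = 0 := by
    funext i
    have hf := (hR0 (θ ⟨(X.w : X.B) • m', hm⟩)).1 ⟨_, h0, rfl⟩ i
    have hg := (hR1 (θ ⟨m', hm2⟩)).1 ⟨_, hm', rfl⟩ i
    exact eq_zero_of_reg hf hg (by rw [e, hθ, X.res_w])
  exact (hker _).1 h3

/-- `H¹ = 0`, one layer -/
theorem split_step (h : IsLayer E 0 P₁ P₂) {m : E.M} (hm : m ∈ P₂) :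
    ∃ a ∈ E.M₀, ∃ c ∈ E.M₁, a ∈ P₂ ∧ c ∈ P₂ ∧ m - a - c ∈ P₁ := by
  obtain ⟨r, θ, hθ, -, hker, hR0, hR1⟩ := h
  choose b₀ h₀ b₁ h₁ hb using fun i => exists_split X (θ ⟨m, hm⟩ i)
  obtain ⟨p, hp, hp'⟩ := (hR0 fun i => X.res (b₀ i)).2 fun i => X.res₀ _ (h₀ i)
  obtain ⟨q, hq, hq'⟩ := (hR1 fun i => T (-1) * X.res (b₁ i)).2
    fun i => T_mul_mem (X.res₁ _ (h₁ i))
  refine ⟨p, hp, q, hq, p.2, q.2, ?_⟩
  have h2 : θ (⟨m, hm⟩ - p - q) = 0 := by
    rw [map_sub, map_sub, hp', hq']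
    funext i
    change θ ⟨m, hm⟩ i - X.res (b₀ i) - T (-1) * X.res (b₁ i) = 0
    rw [hb i]
    ring
  exact (hker _).1 h2

/-- the layer is generated by sections which are regular on both charts modulo `P₁` -/
theorem gen_step (h : IsLayer E 0 P₁ P₂) :
    ∃ (r : ℕ) (p q : Fin r → E.M), (∀ i, p i ∈ P₂ ∧ p i ∈ E.M₀) ∧ (∀ i, q i ∈ P₂ ∧ q i ∈ E.M₁) ∧
      (∀ i, p i - q i ∈ P₁) ∧
      ∀ m ∈ P₂, m ∈ E.M₀ → ∃ b : Fin r → X.B, (∀ i, b i ∈ X.B₀) ∧ m - ∑ i, b i • p i ∈ P₁ := by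
  obtain ⟨r, θ, hθ, -, hker, hR0, hR1⟩ := h
  have hs0 : ∀ i j : Fin r, (Pi.single i (1 : k[T;T⁻¹]) : Fin r → k[T;T⁻¹]) j ∈ Reg0 k := by
    intro i j l hl
    by_cases hj : j = i
    · subst hj
      rw [Pi.single_eq_same]
      have e : (1 : k[T;T⁻¹]) = C 1 * T 0 := by simp
      rw [e, coeff_C_mul_T, if_neg (by omega)]
    · rw [Pi.single_eq_of_ne hj]
      rfl
  have hs1 : ∀ i j : Fin r, (Pi.single i (1 : k[T;T⁻¹]) : Fin r → k[T;T⁻¹]) j ∈ RegInf k 0 := by
    intro i j l hl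
    by_cases hj : j = i
    · subst hj
      rw [Pi.single_eq_same]
      have e : (1 : k[T;T⁻¹]) = C 1 * T 0 := by simp
      rw [e, coeff_C_mul_T, if_neg (by omega)]
    · rw [Pi.single_eq_of_ne hj]
      rfl
  choose p hp hp' using fun i => (hR0 (Pi.single i 1)).2 (hs0 i)
  choose q hq hq' using fun i => (hR1 (Pi.single i 1)).2 (hs1 i)
  refine ⟨r, fun i => p i, fun i => q i, fun i => ⟨(p i).2, hp i⟩, fun i => ⟨(q i).2, hq i⟩,
    fun i => ?_, fun m hm hm0 => ?_⟩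
  · have h2 : θ (p i - q i) = 0 := by rw [map_sub, hp', hq', sub_self]
    exact (hker _).1 h2
  · have hf := (hR0 (θ ⟨m, hm⟩)).1 ⟨_, hm0, rfl⟩
    choose b hb hb' using fun i => exists_res₀ (X := X) (hf i)
    refine ⟨b, hb, ?_⟩
    have h2 : θ (⟨m, hm⟩ - ∑ i, b i • p i) = 0 := by
      rw [map_sub, map_sum]
      funext j
      simp only [Pi.sub_apply, Finset.sum_apply, Pi.zero_apply, hθ, hp', hb']
      rw [Finset.sum_eq_single j]
      · simp
      · intro i _ hij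
        rw [Pi.single_eq_of_ne (Ne.symm hij), mul_zero]
      · intro hj
        exact absurd (Finset.mem_univ j) hj
    have h3 := (hker _).1 h2
    simpa using h3

end Layer

/-- The global sections of `𝒪(-1)` annihilate the iterated extensions of `𝒪_C`. -/
theorem smul_eq_zero {E : Sh X} {n : ℕ} (hE : Loewy E 0 n) {t : X.B} (ht : t ∈ X.sections (-1))
    (m : E.M) : t • m = 0 := by
  obtain ⟨P, hP0, hPn, hP⟩ := hE
  have ht0 : t ∈ X.B₀ := ht.1
  have ht1 : ((X.w⁻¹ : X.Bˣ) : X.B) * t ∈ X.B₁ := by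
    have h := ht.2
    rwa [zpow_neg_one] at h
  have key1 : ∀ j ≤ n, ∀ m ∈ P j, m ∈ E.M₀ → (∃ m' ∈ E.M₁, m = (X.w : X.B) • m') → m = 0 := by
    intro j
    induction j with
    | zero =>
      intro _ m hm _ _
      rwa [hP0, Submodule.mem_bot] at hm
    | succ j ih =>
      intro hj m hm h0 h1
      exact ih (by omega) m (noSec_step (hP j (by omega)).2 hm h0 h1) h0 h1
  have key2 : ∀ j ≤ n, ∀ m ∈ P j, ∃ a ∈ E.M₀, ∃ c ∈ E.M₁, a ∈ P j ∧ c ∈ P j ∧ m = a + c := by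
    intro j
    induction j with
    | zero =>
      intro _ m hm
      rw [hP0, Submodule.mem_bot] at hm
      subst hm
      exact ⟨0, E.M₀.zero_mem, 0, E.M₁.zero_mem, (P 0).zero_mem, (P 0).zero_mem, by simp⟩
    | succ j ih =>
      intro hj m hm
      obtain ⟨a, ha, c, hc, ha', hc', h⟩ := split_step (hP j (by omega)).2 hm
      obtain ⟨a₂, ha₂, c₂, hc₂, ha₂', hc₂', h₂⟩ := ih (by omega) _ h
      have hle := (hP j (by omega)).1
      exact ⟨a + a₂, E.M₀.add_mem ha ha₂, c + c₂, E.M₁.add_mem hc hc₂,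
        (P (j + 1)).add_mem ha' (hle ha₂'), (P (j + 1)).add_mem hc' (hle hc₂'), by
          have h3 : m = (m - a - c) + (a + c) := by abel
          rw [h3, h₂]; abel⟩
  have key3 : ∀ j ≤ n, ∀ m ∈ P j, m ∈ E.M₀ → t • m = 0 := by
    intro j
    induction j with
    | zero =>
      intro _ m hm _
      rw [hP0, Submodule.mem_bot] at hm
      rw [hm, smul_zero]
    | succ j ih =>
      intro hj m hm h0
      obtain ⟨r, p, q, hp, hq, hpq, hgen⟩ := gen_step (hP j (by omega)).2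
      have hle := (hP j (by omega)).1
      choose a ha c hc ha' hc' hac using fun i => key2 j (by omega) _ (hpq i)
      -- the global sections
      have hg : ∀ i, p i - a i = q i + c i := by
        intro i
        have h3 := hac i
        rw [sub_eq_iff_eq_add] at h3
        rw [h3]; abel
      have hg0 : ∀ i, p i - a i ∈ E.M₀ := fun i => E.M₀.sub_mem (hp i).2 (ha i)
      have hg1 : ∀ i, p i - a i ∈ E.M₁ := fun i => by
        rw [hg i]; exact E.M₁.add_mem (hq i).2 (hc i)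
      have hgP : ∀ i, p i - a i ∈ P (j + 1) := fun i =>
        (P (j + 1)).sub_mem (hp i).1 (hle (ha' i))
      have hgt : ∀ i, t • (p i - a i) = 0 := by
        intro i
        refine key1 (j + 1) hj _ ((P (j + 1)).smul_mem _ (hgP i)) (E.smul₀ _ ht0 _ (hg0 i))
          ⟨(((X.w⁻¹ : X.Bˣ) : X.B) * t) • (p i - a i), E.smul₁ _ ht1 _ (hg1 i), ?_⟩
        rw [smul_smul, Units.mul_inv_cancel_left]
      obtain ⟨b, hb, hbm⟩ := hgen m hm h0
      have h4 : m - ∑ i, b i • (p i - a i) ∈ P j := by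
        have h5 : m - ∑ i, b i • (p i - a i) = (m - ∑ i, b i • p i) + ∑ i, b i • a i := by
          rw [sub_add, ← Finset.sum_sub_distrib]
          congr 1
          exact Finset.sum_congr rfl fun i _ => smul_sub _ _ _
        rw [h5]
        exact (P j).add_mem hbm ((P j).sum_mem fun i _ => (P j).smul_mem _ (ha' i))
      have h6 : m - ∑ i, b i • (p i - a i) ∈ E.M₀ :=
        E.M₀.sub_mem h0 (E.M₀.sum_mem fun i _ => E.smul₀ _ (hb i) _ (hg0 i))
      have h7 := ih (by omega) _ h4 h6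
      rw [smul_sub, sub_eq_zero] at h7
      rw [h7, Finset.smul_sum]
      refine Finset.sum_eq_zero fun i _ => ?_
      rw [smul_comm, hgt i, smul_zero]
  obtain ⟨ν, hν⟩ := E.loc₀ m
  have h := key3 n le_rfl _ (by rw [hPn]; trivial) hν
  rw [smul_comm] at h
  have h2 : ((X.x⁻¹ : X.Bˣ) : X.B) ^ ν • ((X.x : X.B) ^ ν • (t • m)) = 0 := by rw [h, smul_zero]
  rwa [smul_smul, ← mul_pow, Units.inv_mul, one_pow, one_smul] at h2

theorem pow_smul_eq_zero {E : Sh X} {n : ℕ} (hE : Loewy E 0 n) {c : X.B} (hc : c ∈ X.I ^ n)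
    (m : E.M) : c • m = 0 := by
  obtain ⟨P, hP0, hPn, hP⟩ := hE
  have key : ∀ j ≤ n, ∀ c ∈ X.I ^ j, ∀ m ∈ P j, c • m = 0 := by
    intro j
    induction j with
    | zero =>
      intro _ c _ m hm
      rw [hP0, Submodule.mem_bot] at hm
      rw [hm, smul_zero]
    | succ j ih =>
      intro hj c hc m hm
      rw [pow_succ] at hc
      refine Submodule.mul_induction_on hc ?_ ?_
      · intro a ha b hb
        rw [mul_smul]
        exact ih (by omega) a ha _ ((hP j (by omega)).2.smul_mem (Nbhd.mem_I.1 hb) hm)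
      · intro a b ha hb
        rw [add_smul, ha, hb, add_zero]
  exact key n le_rfl c hc m (by rw [hPn]; trivial)

/-- On an iterated extension of `𝒪_C` the elements of `Iʲ` act as elements of `I₀ʲ`, up to powers
of `x`. -/
theorem exists_chart {E : Sh X} (hX : X.Formal) {n : ℕ} (hE : Loewy E 0 n) (j : ℕ) :
    ∀ c ∈ X.I ^ j, ∃ (ν : ℕ) (b : X.B₀), b ∈ (X.I.comap (algebraMap X.B₀ X.B)) ^ j ∧
      ∀ m : E.M, ((X.x : X.B) ^ ν * c) • m = (b : X.B) • m := by
  induction j with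
  | zero =>
    intro c _
    obtain ⟨ν, δ, hδ, h⟩ := hX.loc₀ n c
    refine ⟨ν, ⟨_, h⟩, by rw [pow_zero, Ideal.one_eq_top]; trivial, fun m => ?_⟩
    change _ = ((X.x : X.B) ^ ν * c + δ) • m
    rw [add_smul, pow_smul_eq_zero hE hδ, add_zero]
  | succ j ih =>
    intro c hc
    rw [pow_succ] at hc
    refine Submodule.mul_induction_on hc ?_ ?_
    · intro a ha c' hc'
      obtain ⟨ν, b, hb, h⟩ := ih a ha
      obtain ⟨ν', δ, hδ, h'⟩ := hX.loc₀ (n + 1) c'
      have hδ1 : δ ∈ X.I := Ideal.pow_le_self (Nat.succ_ne_zero n) hδ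
      have hδn : δ ∈ X.I ^ n := Ideal.pow_le_pow_right (Nat.le_succ n) hδ
      refine ⟨ν + ν', b * ⟨_, h'⟩, ?_, fun m => ?_⟩
      · rw [pow_succ]
        exact Ideal.mul_mem_mul hb (X.I.add_mem (X.I.mul_mem_left _ hc') hδ1)
      · change _ = ((b : X.B) * ((X.x : X.B) ^ ν' * c' + δ)) • m
        rw [mul_smul (b : X.B), ← h, add_smul, pow_smul_eq_zero hE hδn, add_zero, smul_smul]
        congr 1
        ring
    · intro a c' ha hc'
      obtain ⟨ν, b, hb, h⟩ := ha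
      obtain ⟨ν', b', hb', h'⟩ := hc'
      refine ⟨ν + ν', (⟨X.x, X.x_mem⟩ : X.B₀) ^ ν' * b + (⟨X.x, X.x_mem⟩ : X.B₀) ^ ν * b',
        Ideal.add_mem _ (Ideal.mul_mem_left _ _ hb) (Ideal.mul_mem_left _ _ hb'), fun m => ?_⟩
      change _ = ((X.x : X.B) ^ ν' * (b : X.B) + (X.x : X.B) ^ ν * (b' : X.B)) • m
      rw [add_smul, mul_smul _ (b : X.B), mul_smul _ (b' : X.B), ← h, ← h', smul_smul, smul_smul,
        ← add_smul]
      congr 1
      ring

end CV

/-- If `C` contracts to a point, then one power of the ideal of `C` kills all iterated extensions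
of `𝒪_C`. -/
theorem CV.pow_kills (hX : X.Formal) (h : Contracts X) :
    ∃ N : ℕ, ∀ E : Sh X, (∃ n : ℕ, Loewy E 0 n) → ∀ c ∈ X.I ^ N, ∀ m : E.M, c • m = 0 := by
  obtain ⟨s, N, hs, hgen, -⟩ := h.iso
  refine ⟨N, ?_⟩
  rintro E ⟨n, hE⟩ c hc m
  obtain ⟨ν, b', hb', h3⟩ := CV.exists_chart hX hE N _ hc
  have h4 : (b' : X.B) • m = 0 := by
    have h5 : (b' : X.B) ∈ Submodule.span X.B₀ (s : Set X.B) := hgen ⟨b', hb', rfl⟩
    refine Submodule.span_induction (p := fun y _ => y • m = 0) ?_ ?_ ?_ ?_ h5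
    · intro t ht
      exact CV.smul_eq_zero hE (hs ht) m
    · rw [zero_smul]
    · intro y z _ _ hy hz
      rw [add_smul, hy, hz, add_zero]
    · intro c y _ hy
      rw [Subalgebra.smul_def, smul_eq_mul, mul_smul, hy, smul_zero]
  have h6 := (h3 m).trans h4
  rw [mul_smul] at h6
  have h7 : ((X.x⁻¹ : X.Bˣ) : X.B) ^ ν • ((X.x : X.B) ^ ν • (c • m)) = 0 := by
    rw [h6, smul_zero]
  rwa [smul_smul, ← mul_pow, Units.inv_mul, one_pow, one_smul] at h7

/-- If `C` contracts to a point, then one power of the ideal of `C` kills all iterated extensions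
of `𝒪_C`. -/
theorem killedBy_of_contracts (hX : X.Formal) (h : Contracts X) : ∃ N : ℕ, KilledBy X N := by
  obtain ⟨N, hN⟩ := CV.pow_kills hX h
  refine ⟨N, fun E hE b hb m => hN E hE _ ?_ m⟩
  have h2 := Ideal.prod_mem_prod (s := Finset.univ) (I := fun _ : Fin N => X.I) (x := b)
    fun i _ => Nbhd.mem_I.2 (hb i)
  rwa [Finset.prod_const, Finset.card_univ, Fintype.card_fin] at h2

end Pool.Agent.DWC
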