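import Pool.Agent.H15CV.Rep
import Pool.Agent.H4CV.Fin
import Pool.Agent.H17CV.Main

/-!
# If `C` contracts to a point, then its noncommutative deformation algebra is finite-dimensional
-/

set_option autoImplicit false

universe u

namespace Pool.Agent.DWC

variable {k : Type u} [Field k] {X : Nbhd k}

/-- If `C` contracts to a point, then there is a universal iterated extension of `𝒪_C`. -/
theorem exists_represents_of_contracts (hX : X.Formal) (h : Contracts X) :
    ∃ (Q : Sh X) (g : Q.M), Represents Q g := by
  obtain ⟨N, hN⟩ := CV.pow_kills hX h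
  obtain ⟨s₀, -, h₀⟩ := fin_chart₀ hX N
  obtain ⟨s₁, -, h₁⟩ := fin_chart₁ hX N
  refine CV.exists_represents (fun b => ?_) hN h₀ h₁
  obtain ⟨b₀, hb₀, b₁, hb₁, hb⟩ := h.h1 b
  exact ⟨b₀, hb₀, b₁, hb₁, 0, Ideal.zero_mem _, by rw [hb, add_zero]⟩

/-- If `C` contracts to a point, then its noncommutative deformation algebra is
finite-dimensional. -/
theorem finVersal_of_contracts (hX : X.Formal) (h : Contracts X) : FinVersal X := by
  obtain ⟨Q, g, hQ⟩ := exists_represents_of_contracts hX h
  exact finVersal_of_represents hQ

end Pool.Agent.DWC
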