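import Pool.Agent.H15CV.Bound
import Pool.Agent.H4CV.Prod
import Pool.Agent.H17CV.Defs

/-!
# The universal iterated extension of `𝒪_C`
-/

set_option autoImplicit false

open LaurentPolynomial

universe u

namespace Pool.Agent.DWC

variable {k : Type u} [Field k] {X : Nbhd k}

namespace CV

attribute [local instance] modk

/-- the zero sheaf -/
@[reducible] def zeroSh (X : Nbhd k) : Sh X where
  M := PUnit
  M₀ := ⊤
  M₁ := ⊤
  smul₀ := fun _ _ _ _ => trivial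
  smul₁ := fun _ _ _ _ => trivial
  loc₀ := fun _ => ⟨0, trivial⟩
  loc₁ := fun _ => ⟨0, trivial⟩

theorem cyclic_zero (X : Nbhd k) : Cyclic (zeroSh X) PUnit.unit := by
  refine ⟨⟨0, fun _ => ⊥, rfl, ?_, fun j hj => absurd hj (Nat.not_lt_zero j)⟩, trivial, trivial, ?_⟩
  · rw [eq_top_iff]
    intro m _
    rw [Submodule.mem_bot]
  · intro A _ _
    rw [eq_top_iff]
    intro m _
    have h : m = 0 := rfl
    rw [h]
    exact A.zero_mem

theorem cyclic_sub {E : Sh X} {n : ℕ} (hE : Loewy E 0 n) {e : E.M} (h0 : e ∈ E.M₀)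
    (h1 : e ∈ E.M₁) : Cyclic (E.sub (cyc E e)) ⟨e, mem_cyc E e⟩ := by
  have hp := piSub_cyc (noSec hE) (piSub_top hE) e
  refine ⟨⟨n, loewy_sub hE hp⟩, h0, h1, ?_⟩
  intro A hA heA
  have h2 : PiSub E (A.map (cyc E e).subtype) := by
    rintro _ ⟨m, hm, rfl⟩
    obtain ⟨a, ha, c, hc, haA, hcA, h⟩ := hA m hm
    exact ⟨a, ha, c, hc, ⟨a, haA, rfl⟩, ⟨c, hcA, rfl⟩, congrArg Subtype.val h⟩
  have h3 : cyc E e ≤ A.map (cyc E e).subtype := cyc_le h2 ⟨_, heA, rfl⟩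
  rw [eq_top_iff]
  rintro ⟨m, hm⟩ _
  obtain ⟨m', hm', h4⟩ := h3 hm
  have h5 : m' = ⟨m, hm⟩ := Subtype.ext h4
  rwa [← h5]

theorem exists_max_cyclic {C : ℕ}
    (hC : ∀ (E : Sh X) (e : E.M), Cyclic E e → Module.finrank k (h0 E) ≤ C) :
    ∃ (P : Sh X) (p : P.M), Cyclic P p ∧
      ∀ (Q : Sh X) (q : Q.M), Cyclic Q q → Module.finrank k (h0 Q) ≤ Module.finrank k (h0 P) := by
  let S : Set ℕ := {l | ∃ (P : Sh X) (p : P.M), Cyclic P p ∧ Module.finrank k (h0 P) = l}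
  have hS : S.Nonempty := ⟨_, zeroSh X, PUnit.unit, cyclic_zero X, rfl⟩
  have hB : BddAbove S := ⟨C, by rintro l ⟨P, p, hP, rfl⟩; exact hC P p hP⟩
  obtain ⟨P, p, hP, hl⟩ := Nat.sSup_mem hS hB
  refine ⟨P, p, hP, fun Q q hQ => ?_⟩
  rw [hl]
  exact le_csSup hB ⟨Q, q, hQ, rfl⟩

theorem represents_of_max {P : Sh X} {p : P.M} (hP : Cyclic P p)
    (hfin : ∀ (Q : Sh X) (q : Q.M), Cyclic Q q → Module.Finite k (h0 Q))
    (hmax : ∀ (Q : Sh X) (q : Q.M), Cyclic Q q →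
      Module.finrank k (h0 Q) ≤ Module.finrank k (h0 P)) :
    Represents P p := by
  have hP' := hP
  obtain ⟨⟨L, hL⟩, hp0, hp1, hcyc⟩ := hP
  refine ⟨⟨L, hL⟩, hp0, hp1, ?_⟩
  rintro E ⟨n, hE⟩ - - e he0 he1
  have hF : Loewy (P.prod E) 0 (n + L) := loewy_prod hL hE
  have hQ := cyclic_sub (e := ((p, e) : P.M × E.M)) hF ⟨hp0, he0⟩ ⟨hp1, he1⟩
  obtain ⟨D, hD⟩ : ∃ D, D = cyc (P.prod E) ((p, e) : P.M × E.M) := ⟨_, rfl⟩
  have hmem : ((p, e) : P.M × E.M) ∈ D := by rw [hD]; exact mem_cyc _ _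
  have hQ : Cyclic ((P.prod E).sub D) ⟨((p, e) : P.M × E.M), hmem⟩ := by
    subst hD; exact hQ
  obtain ⟨⟨l, hQL⟩, -⟩ := id hQ
  let pr : ((P.prod E).sub D).M →ₗ[X.B] P.M := (LinearMap.fst X.B P.M E.M).comp D.subtype
  have hpr : IsMap ((P.prod E).sub D) P pr := ⟨fun m hm => hm.1, fun m hm => hm.1⟩
  have hsurj : Function.Surjective pr := by
    rw [← LinearMap.range_eq_top]
    exact hcyc _ (hpr.piSub_range (piSub_top hQL)) ⟨⟨(p, e), hmem⟩, rfl⟩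
  have hs0 : Function.Surjective (h0map hpr) := by
    rintro ⟨m, hm0, hm1⟩
    obtain ⟨a, ha0, ha1, h⟩ := hpr.surj (piSub_top hQL) (noSec hL) hsurj hm0 hm1
    exact ⟨⟨a, ha0, ha1⟩, Subtype.ext h⟩
  have hfQ := hfin _ _ hQ
  have hfP := hfin _ _ hP'
  have hinj0 : Function.Injective (h0map hpr) := by
    have h1 : Module.finrank k (h0 ((P.prod E).sub D)) = Module.finrank k (h0 P) :=
      le_antisymm (hmax _ _ hQ) (LinearMap.finrank_le_finrank_of_surjective hs0)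
    exact (LinearMap.injective_iff_surjective_of_finrank_eq_finrank h1).2 hs0
  have hK := hpr.piSub_ker (piSub_top hQL) (noSec hL)
  have hKL := loewy_sub hQL hK
  have hker : ∀ m, pr m = 0 → m = 0 := by
    intro m hm
    have h1 := eq_zero_of_no_global hKL (by
      rintro ⟨g, hg⟩ hg0 hg1
      have h2 : h0map hpr ⟨g, hg0, hg1⟩ = h0map hpr 0 := by
        rw [map_zero]
        exact Subtype.ext hg
      have h3 : g = 0 := congrArg Subtype.val (hinj0 h2)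
      exact Subtype.ext h3) ⟨m, hm⟩
    exact congrArg Subtype.val h1
  have hinj : Function.Injective pr := (injective_iff_map_eq_zero pr).2 hker
  let eqv : ((P.prod E).sub D).M ≃ₗ[X.B] P.M := LinearEquiv.ofBijective pr ⟨hinj, hsurj⟩
  have heqv : ∀ m, pr (eqv.symm m) = m := fun m => eqv.apply_symm_apply m
  let u : P.M →ₗ[X.B] E.M :=
    ((LinearMap.snd X.B P.M E.M).comp D.subtype).comp eqv.symm.toLinearMap
  have hu0 : ∀ m ∈ P.M₀, u m ∈ E.M₀ := by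
    intro m hm
    have h1 : pr (eqv.symm m) ∈ P.M₀ := by rw [heqv]; exact hm
    obtain ⟨a, ha, h⟩ := hpr.strict₀ (piSub_top hQL) (noSec hL) h1
    rw [hinj h] at ha
    exact ha.2
  have hu1 : ∀ m ∈ P.M₁, u m ∈ E.M₁ := by
    intro m hm
    have h1 : pr (eqv.symm m) ∈ P.M₁ := by rw [heqv]; exact hm
    obtain ⟨a, ha, h⟩ := hpr.strict₁ (piSub_top hQL) (noSec hL) h1
    rw [hinj h] at ha
    exact ha.2
  have hue : u p = e := by
    have h1 : eqv.symm p = ⟨(p, e), hmem⟩ := hinj (by rw [heqv]; rfl)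
    change ((eqv.symm p : D) : P.M × E.M).2 = e
    rw [h1]
  refine ⟨u, ⟨⟨hu0, hu1⟩, hue⟩, ?_⟩
  rintro v ⟨hv, hve⟩
  have hd : IsMap P E (v - u) :=
    ⟨fun m hm => E.M₀.sub_mem (hv.1 m hm) (hu0 m hm),
      fun m hm => E.M₁.sub_mem (hv.2 m hm) (hu1 m hm)⟩
  have h2 := hcyc _ (hd.piSub_ker (piSub_top hL) (noSec hE)) (by
    rw [LinearMap.mem_ker, LinearMap.sub_apply, hve, hue, sub_self])
  have h3 : v - u = 0 := LinearMap.ker_eq_top.1 h2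
  exact sub_eq_zero.1 h3

/-- If `H¹(X, 𝒪) = 0` and a power of the ideal of `C` kills all iterated extensions of `𝒪_C`, then
there is a universal one. -/
theorem exists_represents {N : ℕ} {s₀ s₁ : Finset X.B}
    (h1 : ∀ b : X.B, ∃ b₀ ∈ X.B₀, ∃ b₁ ∈ X.B₁, ∃ i ∈ X.I ^ N, b = b₀ + b₁ + i)
    (hK : ∀ E : Sh X, (∃ n, Loewy E 0 n) → ∀ c ∈ X.I ^ N, ∀ m : E.M, c • m = 0)
    (hf₀ : ∀ b ∈ X.B₀, ∃ b' ∈ X.B₀, ∃ i ∈ X.I ^ N, ∃ c : X.B → k,
      b = (X.x : X.B) * b' + i + ∑ g ∈ s₀, c g • g)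
    (hf₁ : ∀ b ∈ X.B₁, ∃ b' ∈ X.B₁, ∃ i ∈ X.I ^ N, ∃ c : X.B → k,
      b = (X.w : X.B) * b' + i + ∑ g ∈ s₁, c g • g) :
    ∃ (P : Sh X) (p : P.M), Represents P p := by
  obtain ⟨P, p, hP, hmax⟩ := exists_max_cyclic (X := X) (C := (s₁.card + 1) * s₀.card)
    fun E e hE => (hE.bound h1 hK hf₀ hf₁).2
  exact ⟨P, p, represents_of_max hP (fun Q q hQ => (hQ.bound h1 hK hf₀ hf₁).1) hmax⟩

end CV

end Pool.Agent.DWC
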