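import Pool.Agent.H15CV.Killed
import Pool.Agent.DWC.P3

/-!
# Subobjects of iterated extensions of `𝒪_C`

`E` is an iterated extension of `𝒪_C`, so `M = M₀ ⊕ w M₁`.  A submodule `A` of `M` is a subobject
of `E` if it is the sum of its intersections with `M₀` and with `w M₁`.
-/

set_option autoImplicit false

open LaurentPolynomial

universe u

namespace Pool.Agent.DWC

variable {k : Type u} [Field k] {X : Nbhd k}

namespace CV

/-- `A` is the sum of `A ∩ M₀` and `A ∩ w M₁` -/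
def PiSub (E : Sh X) (A : Submodule X.B E.M) : Prop :=
  ∀ m ∈ A, ∃ a ∈ E.M₀, ∃ c ∈ E.M₁, a ∈ A ∧ c ∈ A ∧ m = a + (X.w : X.B) • c

/-- `M₀ ∩ w M₁ = 0` -/
def NoSec (E : Sh X) : Prop :=
  ∀ a ∈ E.M₀, ∀ c ∈ E.M₁, a + (X.w : X.B) • c = 0 → a = 0 ∧ c = 0

theorem w_smul_inj {E : Sh X} {c : E.M} (h : (X.w : X.B) • c = 0) : c = 0 := by
  have h2 : ((X.w⁻¹ : X.Bˣ) : X.B) • ((X.w : X.B) • c) = 0 := by rw [h, smul_zero]
  rwa [smul_smul, Units.inv_mul, one_smul] at h2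

theorem mem_of_w_smul_mem {E : Sh X} {A : Submodule X.B E.M} {c : E.M}
    (h : (X.w : X.B) • c ∈ A) : c ∈ A := by
  have h2 := A.smul_mem ((X.w⁻¹ : X.Bˣ) : X.B) h
  rwa [smul_smul, Units.inv_mul, one_smul] at h2

theorem noSec {E : Sh X} {n : ℕ} (hE : Loewy E 0 n) : NoSec E := by
  obtain ⟨P, hP0, hPn, hP⟩ := hE
  have key1 : ∀ j ≤ n, ∀ m ∈ P j, m ∈ E.M₀ → (∃ m' ∈ E.M₁, m = (X.w : X.B) • m') → m = 0 := by
    intro j
    induction j with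
    | zero =>
      intro _ m hm _ _
      rwa [hP0, Submodule.mem_bot] at hm
    | succ j ih =>
      intro hj m hm h0 h1
      exact ih (by omega) m (noSec_step (hP j (by omega)).2 hm h0 h1) h0 h1
  intro a ha c hc h
  have h1 : a = (X.w : X.B) • (-c) := by
    rw [smul_neg]; exact eq_neg_of_add_eq_zero_left h
  have h2 : a = 0 := key1 n le_rfl a (by rw [hPn]; trivial) ha ⟨-c, E.M₁.neg_mem hc, h1⟩
  refine ⟨h2, ?_⟩
  rw [h2, zero_add] at h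
  exact w_smul_inj h

theorem NoSec.unique {E : Sh X} (h : NoSec E) {a a' c c' : E.M} (ha : a ∈ E.M₀) (ha' : a' ∈ E.M₀)
    (hc : c ∈ E.M₁) (hc' : c' ∈ E.M₁)
    (e : a + (X.w : X.B) • c = a' + (X.w : X.B) • c') : a = a' ∧ c = c' := by
  have h1 := h (a - a') (E.M₀.sub_mem ha ha') (c - c') (E.M₁.sub_mem hc hc') (by
    rw [smul_sub, sub_add_sub_comm, e, sub_self])
  exact ⟨sub_eq_zero.1 h1.1, sub_eq_zero.1 h1.2⟩

/-- `H¹(E(-1)) = 0`, one layer -/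
theorem splitw_step {E : Sh X} {P₁ P₂ : Submodule X.B E.M} (h : IsLayer E 0 P₁ P₂) {m : E.M}
    (hm : m ∈ P₂) :
    ∃ a ∈ E.M₀, ∃ c ∈ E.M₁, a ∈ P₂ ∧ c ∈ P₂ ∧ m - a - (X.w : X.B) • c ∈ P₁ := by
  obtain ⟨r, θ, hθ, -, hker, hR0, hR1⟩ := h
  choose b₀ h₀ b₁ h₁ hb using fun i => exists_split X (θ ⟨m, hm⟩ i)
  obtain ⟨p, hp, hp'⟩ := (hR0 fun i => X.res (b₀ i)).2 fun i => X.res₀ _ (h₀ i)
  obtain ⟨q, hq, hq'⟩ := (hR1 fun i => X.res (b₁ i)).2 fun i => X.res₁ _ (h₁ i)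
  refine ⟨p, hp, q, hq, p.2, q.2, ?_⟩
  have h2 : θ (⟨m, hm⟩ - p - (X.w : X.B) • q) = 0 := by
    rw [map_sub, map_sub]
    funext i
    change θ ⟨m, hm⟩ i - θ p i - θ ((X.w : X.B) • q) i = 0
    rw [hp', hθ, hq', X.res_w, hb i]
    ring
  exact (hker _).1 h2

theorem piSub_chain {E : Sh X} {n : ℕ} {P : ℕ → Submodule X.B E.M} (hP0 : P 0 = ⊥)
    (hP : ∀ j < n, P j ≤ P (j + 1) ∧ IsLayer E 0 (P j) (P (j + 1))) :
    ∀ j ≤ n, PiSub E (P j) := by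
  intro j
  induction j with
  | zero =>
    intro _ m hm
    rw [hP0, Submodule.mem_bot] at hm
    subst hm
    exact ⟨0, E.M₀.zero_mem, 0, E.M₁.zero_mem, (P 0).zero_mem, (P 0).zero_mem, by simp⟩
  | succ j ih =>
    intro hj m hm
    obtain ⟨a, ha, c, hc, ha', hc', h⟩ := splitw_step (hP j (by omega)).2 hm
    obtain ⟨a₂, ha₂, c₂, hc₂, ha₂', hc₂', h₂⟩ := ih (by omega) _ h
    have hle := (hP j (by omega)).1
    refine ⟨a + a₂, E.M₀.add_mem ha ha₂, c + c₂, E.M₁.add_mem hc hc₂,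
      (P (j + 1)).add_mem ha' (hle ha₂'), (P (j + 1)).add_mem hc' (hle hc₂'), ?_⟩
    have h3 : m = (m - a - (X.w : X.B) • c) + (a + (X.w : X.B) • c) := by abel
    rw [h3, h₂, smul_add]
    abel

theorem piSub_top {E : Sh X} {n : ℕ} (hE : Loewy E 0 n) : PiSub E ⊤ := by
  obtain ⟨P, hP0, hPn, hP⟩ := hE
  have h := piSub_chain hP0 hP n le_rfl
  rwa [hPn] at h

theorem PiSub.inf {E : Sh X} (hE : NoSec E) {A A' : Submodule X.B E.M} (h : PiSub E A)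
    (h' : PiSub E A') : PiSub E (A ⊓ A') := by
  intro m hm
  obtain ⟨a, ha, c, hc, haA, hcA, e⟩ := h m hm.1
  obtain ⟨a', ha', c', hc', haA', hcA', e'⟩ := h' m hm.2
  obtain ⟨h1, h2⟩ := hE.unique ha ha' hc hc' (e.symm.trans e')
  exact ⟨a, ha, c, hc, ⟨haA, h1 ▸ haA'⟩, ⟨hcA, h2 ▸ hcA'⟩, e⟩

/-- the smallest subobject containing `e` -/
def cyc (E : Sh X) (e : E.M) : Submodule X.B E.M := sInf {A | PiSub E A ∧ e ∈ A}

theorem mem_cyc (E : Sh X) (e : E.M) : e ∈ cyc E e := by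
  unfold cyc
  rw [Submodule.mem_sInf]
  exact fun A hA => hA.2

theorem cyc_le {E : Sh X} {e : E.M} {A : Submodule X.B E.M} (h : PiSub E A) (he : e ∈ A) :
    cyc E e ≤ A := sInf_le ⟨h, he⟩

theorem piSub_cyc {E : Sh X} (hE : NoSec E) (ht : PiSub E ⊤) (e : E.M) : PiSub E (cyc E e) := by
  intro m hm
  obtain ⟨a, ha, c, hc, -, -, h⟩ := ht m trivial
  unfold cyc at hm ⊢
  rw [Submodule.mem_sInf] at hm
  refine ⟨a, ha, c, hc, ?_, ?_, h⟩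
  · rw [Submodule.mem_sInf]
    intro A hA
    obtain ⟨a', ha', c', hc', haA', hcA', e'⟩ := hA.1 m (hm A hA)
    obtain ⟨h1, h2⟩ := hE.unique ha ha' hc hc' (h.symm.trans e')
    exact h1 ▸ haA'
  · rw [Submodule.mem_sInf]
    intro A hA
    obtain ⟨a', ha', c', hc', haA', hcA', e'⟩ := hA.1 m (hm A hA)
    obtain ⟨h1, h2⟩ := hE.unique ha ha' hc hc' (h.symm.trans e')
    exact h2 ▸ hcA'

/-- maps of sheaves -/
structure IsMap (E F : Sh X) (u : E.M →ₗ[X.B] F.M) : Prop where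
  map₀ : ∀ m ∈ E.M₀, u m ∈ F.M₀
  map₁ : ∀ m ∈ E.M₁, u m ∈ F.M₁

theorem IsMap.piSub_comap {E F : Sh X} {u : E.M →ₗ[X.B] F.M} (hu : IsMap E F u) (hE : PiSub E ⊤)
    (hF : NoSec F) {A : Submodule X.B F.M} (hA : PiSub F A) : PiSub E (A.comap u) := by
  intro m hm
  obtain ⟨a, ha, c, hc, -, -, h⟩ := hE m trivial
  obtain ⟨a', ha', c', hc', haA', hcA', e'⟩ := hA (u m) hm
  obtain ⟨h1, h2⟩ := hF.unique (hu.map₀ a ha) ha' (hu.map₁ c hc) hc' (by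
    rw [← map_smul, ← map_add, ← h, e'])
  refine ⟨a, ha, c, hc, ?_, ?_, h⟩
  · change u a ∈ A; rwa [h1]
  · change u c ∈ A; rwa [h2]

theorem piSub_bot (E : Sh X) : PiSub E ⊥ := by
  intro m hm
  rw [Submodule.mem_bot] at hm
  subst hm
  exact ⟨0, E.M₀.zero_mem, 0, E.M₁.zero_mem, Submodule.zero_mem _, Submodule.zero_mem _, by simp⟩

theorem IsMap.piSub_ker {E F : Sh X} {u : E.M →ₗ[X.B] F.M} (hu : IsMap E F u) (hE : PiSub E ⊤)
    (hF : NoSec F) : PiSub E (LinearMap.ker u) :=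
  hu.piSub_comap hE hF (piSub_bot F)

theorem IsMap.piSub_range {E F : Sh X} {u : E.M →ₗ[X.B] F.M} (hu : IsMap E F u)
    (hE : PiSub E ⊤) : PiSub F (LinearMap.range u) := by
  rintro _ ⟨m, rfl⟩
  obtain ⟨a, ha, c, hc, -, -, h⟩ := hE m trivial
  exact ⟨u a, hu.map₀ a ha, u c, hu.map₁ c hc, ⟨a, rfl⟩, ⟨c, rfl⟩, by
    rw [h, map_add, map_smul]⟩

theorem IsMap.strict₀ {E F : Sh X} {u : E.M →ₗ[X.B] F.M} (hu : IsMap E F u) (hE : PiSub E ⊤)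
    (hF : NoSec F) {m : E.M} (hm : u m ∈ F.M₀) : ∃ a ∈ E.M₀, u a = u m := by
  obtain ⟨a, ha, c, hc, -, -, h⟩ := hE m trivial
  obtain ⟨h1, -⟩ := hF.unique (hu.map₀ a ha) hm (hu.map₁ c hc) F.M₁.zero_mem (by
    rw [smul_zero, add_zero, ← map_smul, ← map_add, ← h])
  exact ⟨a, ha, h1⟩

theorem IsMap.strict₁ {E F : Sh X} {u : E.M →ₗ[X.B] F.M} (hu : IsMap E F u) (hE : PiSub E ⊤)
    (hF : NoSec F) {m : E.M} (hm : u m ∈ F.M₁) : ∃ c ∈ E.M₁, u c = u m := by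
  obtain ⟨a, ha, c, hc, -, -, h⟩ := hE ((X.w : X.B) • m) trivial
  obtain ⟨-, h1⟩ := hF.unique (hu.map₀ a ha) F.M₀.zero_mem (hu.map₁ c hc) hm (by
    rw [zero_add, ← map_smul, ← map_add, ← h, map_smul])
  exact ⟨c, hc, h1⟩

theorem IsMap.surj {E F : Sh X} {u : E.M →ₗ[X.B] F.M} (hu : IsMap E F u) (hE : PiSub E ⊤)
    (hF : NoSec F) (hs : Function.Surjective u) {m : F.M} (h0 : m ∈ F.M₀) (h1 : m ∈ F.M₁) :
    ∃ a ∈ E.M₀, a ∈ E.M₁ ∧ u a = m := by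
  obtain ⟨m', rfl⟩ := hs m
  obtain ⟨a, ha, e⟩ := hu.strict₀ hE hF h0
  obtain ⟨c, hc, e'⟩ := hu.strict₁ hE hF h1
  have hk : a - c ∈ LinearMap.ker u := by
    rw [LinearMap.mem_ker, map_sub, e, e', sub_self]
  obtain ⟨a₂, ha₂, c₂, hc₂, ha₂', hc₂', h⟩ := hu.piSub_ker hE hF _ hk
  refine ⟨a - a₂, E.M₀.sub_mem ha ha₂, ?_, ?_⟩
  · have h3 : a - a₂ = c + (X.w : X.B) • c₂ := by
      rw [sub_eq_iff_eq_add] at h
      rw [h]; abel
    rw [h3]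
    exact E.M₁.add_mem hc (E.smul₁ _ X.w_mem _ hc₂)
  · rw [map_sub, e, LinearMap.mem_ker.1 ha₂', sub_zero]

/-- the subsheaf with sections `A` over `U₀ ∩ U₁` -/
@[reducible] def _root_.Pool.Agent.DWC.Sh.sub (E : Sh X) (A : Submodule X.B E.M) : Sh X where
  M := A
  M₀ := E.M₀.comap A.subtype.toAddMonoidHom
  M₁ := E.M₁.comap A.subtype.toAddMonoidHom
  smul₀ := fun b hb m hm => E.smul₀ b hb m hm
  smul₁ := fun b hb m hm => E.smul₁ b hb m hm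
  loc₀ := fun m => E.loc₀ m
  loc₁ := fun m => E.loc₁ m

theorem isMap_subtype (E : Sh X) (A : Submodule X.B E.M) : IsMap (E.sub A) E A.subtype :=
  ⟨fun _ h => h, fun _ h => h⟩

theorem NoSec.sub {E : Sh X} (h : NoSec E) (A : Submodule X.B E.M) : NoSec (E.sub A) := by
  intro a ha c hc e
  have h1 := h a ha c hc (congrArg Subtype.val e)
  exact ⟨Subtype.ext h1.1, Subtype.ext h1.2⟩

end CV

end Pool.Agent.DWC
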