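import Pool.Agent.H15CV.Sub

/-!
# Subobjects of iterated extensions of `𝒪_C` are iterated extensions of `𝒪_C`
-/

set_option autoImplicit false

open LaurentPolynomial

universe u

namespace Pool.Agent.DWC

variable {k : Type u} [Field k] {X : Nbhd k}

namespace CV

theorem reg_inter {f : k[T;T⁻¹]} (hf : f ∈ Reg0 k) (hg : f ∈ RegInf k (-1)) : f = 0 := by
  apply AddMonoidAlgebra.coeff_injective
  ext i
  rcases lt_or_ge i 0 with hi | hi
  · rw [hf i hi]; rfl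
  · rw [hg i (by omega)]; rfl

theorem T_mem_RegInf {f : k[T;T⁻¹]} {d : ℤ} (n : ℤ) (hf : f ∈ RegInf k d) :
    T n * f ∈ RegInf k (d + n) := by
  intro i hi
  rw [coeff_T_mul]
  exact hf _ (by omega)

/-- the subspace of constant vectors has finite dimension -/
theorem finite_const {r : ℕ} {N : Submodule k[T;T⁻¹] (Fin r → k[T;T⁻¹])} (W : Submodule k N)
    (hW : ∀ f ∈ W, ∀ i, (f : Fin r → k[T;T⁻¹]) i ∈ Reg0 k ∧
      (f : Fin r → k[T;T⁻¹]) i ∈ RegInf k 0) : FiniteDimensional k W := by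
  let ev : W →ₗ[k] (Fin r → k) :=
    { toFun := fun f i => ((f : N) : Fin r → k[T;T⁻¹]) i |>.coeff 0
      map_add' := fun f g => by
        funext i
        change (((f : N) : Fin r → k[T;T⁻¹]) i + ((g : N) : Fin r → k[T;T⁻¹]) i).coeff 0 = _
        rw [AddMonoidAlgebra.coeff_add]; rfl
      map_smul' := fun c f => by
        funext i
        change (c • ((f : N) : Fin r → k[T;T⁻¹]) i).coeff 0 = _
        rw [AddMonoidAlgebra.coeff_smul]; rfl }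
  have hinj : Function.Injective ev := by
    rintro ⟨f, hf⟩ ⟨g, hg⟩ h
    apply Subtype.ext
    apply Subtype.ext
    funext i
    apply AddMonoidAlgebra.coeff_injective
    ext j
    rcases lt_trichotomy j 0 with hj | hj | hj
    · rw [(hW f hf i).1 j hj, (hW g hg i).1 j hj]
    · subst hj
      exact congrFun h i
    · rw [(hW f hf i).2 j hj, (hW g hg i).2 j hj]
  exact FiniteDimensional.of_injective ev hinj

/-- multiplication by `T` -/
noncomputable def mulT (r : ℕ) (N : Submodule k[T;T⁻¹] (Fin r → k[T;T⁻¹])) : N ≃ₗ[k] N where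
  toFun f := (T 1 : k[T;T⁻¹]) • f
  invFun f := (T (-1) : k[T;T⁻¹]) • f
  map_add' f g := smul_add _ _ _
  map_smul' c f := by
    rw [RingHom.id_apply, smul_comm]
  left_inv f := by
    change (T (-1) : k[T;T⁻¹]) • ((T 1 : k[T;T⁻¹]) • f) = f
    rw [smul_smul, ← T_add]
    simp
  right_inv f := by
    change (T 1 : k[T;T⁻¹]) • ((T (-1) : k[T;T⁻¹]) • f) = f
    rw [smul_smul, ← T_add]
    simp

theorem mulT_iter {r : ℕ} {N : Submodule k[T;T⁻¹] (Fin r → k[T;T⁻¹])} (f : N) (n : ℕ) :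
    (mulT r N : N → N)^[n] f = (T (n : ℤ) : k[T;T⁻¹]) • f := by
  induction n with
  | zero => simp
  | succ n ih =>
    rw [Function.iterate_succ_apply', ih]
    change (T 1 : k[T;T⁻¹]) • ((T (n : ℤ) : k[T;T⁻¹]) • f) = _
    rw [smul_smul, ← T_add]
    congr 2
    push_cast
    ring

theorem mulT_symm_iter {r : ℕ} {N : Submodule k[T;T⁻¹] (Fin r → k[T;T⁻¹])} (f : N) (n : ℕ) :
    ((mulT r N).symm : N → N)^[n] f = (T (-(n : ℤ)) : k[T;T⁻¹]) • f := by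
  induction n with
  | zero => simp
  | succ n ih =>
    rw [Function.iterate_succ_apply', ih]
    change (T (-1) : k[T;T⁻¹]) • ((T (-(n : ℤ)) : k[T;T⁻¹]) • f) = _
    rw [smul_smul, ← T_add]
    congr 2
    push_cast
    ring

/-- a `k`-linear map which commutes with `T` is linear over the Laurent polynomials -/
theorem linear_of_T {r s : ℕ} {N : Submodule k[T;T⁻¹] (Fin r → k[T;T⁻¹])}
    (θ : N ≃ₗ[k] (Fin s → k[T;T⁻¹])) (h : ∀ a i, θ (mulT r N a) i = T 1 * θ a i)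
    (f : k[T;T⁻¹]) (a : N) (i : Fin s) : θ (f • a) i = f * θ a i := by
  have h1 : ∀ (n : ℕ) (a : N) (i : Fin s), θ ((T (n : ℤ) : k[T;T⁻¹]) • a) i
      = T (n : ℤ) * θ a i := by
    intro n
    induction n with
    | zero => intro a i; simp
    | succ n ih =>
      intro a i
      have e : (T ((n + 1 : ℕ) : ℤ) : k[T;T⁻¹]) • a
          = mulT r N ((T (n : ℤ) : k[T;T⁻¹]) • a) := by
        change _ = (T 1 : k[T;T⁻¹]) • ((T (n : ℤ) : k[T;T⁻¹]) • a)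
        rw [smul_smul, ← T_add]
        congr 2
        push_cast
        ring
      rw [e, h, ih, ← mul_assoc, ← T_add]
      congr 2
      push_cast
      ring
  have h2 : ∀ (n : ℕ) (a : N) (i : Fin s), θ ((T (-(n : ℤ)) : k[T;T⁻¹]) • a) i
      = T (-(n : ℤ)) * θ a i := by
    intro n a i
    have h3 := h1 n ((T (-(n : ℤ)) : k[T;T⁻¹]) • a) i
    rw [smul_smul, ← T_add, add_neg_cancel, T_zero, one_smul] at h3
    rw [h3, ← mul_assoc, ← T_add, neg_add_cancel, T_zero, one_mul]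
  have h3 : ∀ (n : ℤ) (a : N) (i : Fin s), θ ((T n : k[T;T⁻¹]) • a) i = T n * θ a i := by
    intro n a i
    rcases Int.eq_nat_or_neg n with ⟨m, rfl | rfl⟩
    · exact h1 m a i
    · exact h2 m a i
  induction f using LaurentPolynomial.induction_on' with
  | add p q hp hq =>
    rw [add_smul, map_add, Pi.add_apply, hp, hq, add_mul]
  | C_mul_T n c =>
    have e : (C c * T n : k[T;T⁻¹]) • a = c • ((T n : k[T;T⁻¹]) • a) := by
      rw [mul_smul]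
      rw [← algebraMap_smul (k[T;T⁻¹]) c ((T n : k[T;T⁻¹]) • a)]
      rfl
    rw [e, map_smul, Pi.smul_apply, h3, Algebra.smul_def]
    change C c * (T n * θ a i) = _
    ring

/-- the image of `A ∩ P₂` in the layer `P₂ / P₁` -/
def imgLayer {E : Sh X} {P₂ : Submodule X.B E.M} {r : ℕ} (θ : P₂ →+ (Fin r → k[T;T⁻¹]))
    (hθ : ∀ (b : X.B) (p : P₂) (i : Fin r), θ (b • p) i = X.res b * θ p i)
    (A : Submodule X.B E.M) : Submodule k[T;T⁻¹] (Fin r → k[T;T⁻¹]) where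
  carrier := {f | ∃ p : P₂, (p : E.M) ∈ A ∧ θ p = f}
  add_mem' := by
    rintro f g ⟨p, hp, rfl⟩ ⟨q, hq, rfl⟩
    exact ⟨p + q, A.add_mem hp hq, map_add _ _ _⟩
  zero_mem' := ⟨0, A.zero_mem, map_zero _⟩
  smul_mem' := by
    rintro f _ ⟨p, hp, rfl⟩
    obtain ⟨b₀, -, b₁, -, hb⟩ := exists_split X f
    refine ⟨(b₀ + (X.w : X.B) * b₁) • p, A.smul_mem _ hp, ?_⟩
    funext i
    rw [hθ, map_add, map_mul, X.res_w, ← hb]
    rfl

theorem isLayer_sub {E : Sh X} {P₁ P₂ A : Submodule X.B E.M} (h : IsLayer E 0 P₁ P₂)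
    (hA : PiSub E (A ⊓ P₂)) :
    IsLayer (E.sub A) 0 (P₁.comap A.subtype) (P₂.comap A.subtype) := by
  obtain ⟨r, θ, hθ, -, hker, hR0, hR1⟩ := h
  obtain ⟨N, hN⟩ : ∃ N, N = imgLayer θ hθ A := ⟨_, rfl⟩
  have hmem : ∀ f, f ∈ N ↔ ∃ p : P₂, (p : E.M) ∈ A ∧ θ p = f := fun f => by rw [hN]; exact Iff.rfl
  have hx : ∀ (n : ℕ) (p : P₂), θ ((X.x : X.B) ^ n • p) = (T (n : ℤ) : k[T;T⁻¹]) • θ p := by
    intro n p
    funext i
    rw [hθ, map_pow, X.res_x, T_pow, mul_one]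
    rfl
  have hw : ∀ (n : ℕ) (p : P₂), θ ((X.w : X.B) ^ n • p) = (T (-(n : ℤ)) : k[T;T⁻¹]) • θ p := by
    intro n p
    funext i
    rw [hθ, map_pow, X.res_w, T_pow]
    have e : (n : ℤ) * (-1) = -(n : ℤ) := by ring
    rw [e]
    rfl
  have hreg0 : ∀ p : P₂, (p : E.M) ∈ E.M₀ → ∀ i, θ p i ∈ Reg0 k :=
    fun p hp => (hR0 _).1 ⟨p, hp, rfl⟩
  have hreg1 : ∀ p : P₂, (p : E.M) ∈ E.M₁ → ∀ i, θ p i ∈ RegInf k 0 :=
    fun p hp => (hR1 _).1 ⟨p, hp, rfl⟩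
  let N₀ : Submodule k N :=
    { carrier := {f | ∃ p : P₂, (p : E.M) ∈ A ∧ (p : E.M) ∈ E.M₀ ∧ θ p = (f : Fin r → k[T;T⁻¹])}
      add_mem' := by
        rintro f g ⟨p, hp, hp0, e⟩ ⟨q, hq, hq0, e'⟩
        exact ⟨p + q, A.add_mem hp hq, E.M₀.add_mem hp0 hq0, by rw [map_add, e, e']; rfl⟩
      zero_mem' := ⟨0, A.zero_mem, E.M₀.zero_mem, map_zero _⟩
      smul_mem' := by
        rintro c f ⟨p, hp, hp0, e⟩
        refine ⟨algebraMap k X.B c • p, A.smul_mem _ hp,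
          E.smul₀ _ (X.B₀.algebraMap_mem c) _ hp0, ?_⟩
        funext i
        rw [hθ, e, AlgHom.commutes]
        change C c * (f : Fin r → k[T;T⁻¹]) i = c • (f : Fin r → k[T;T⁻¹]) i
        rw [Algebra.smul_def]; rfl }
  let N₁ : Submodule k N :=
    { carrier := {f | ∃ p : P₂, (p : E.M) ∈ A ∧ (p : E.M) ∈ E.M₁ ∧
        (T (-1) : k[T;T⁻¹]) • θ p = (f : Fin r → k[T;T⁻¹])}
      add_mem' := by
        rintro f g ⟨p, hp, hp0, e⟩ ⟨q, hq, hq0, e'⟩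
        exact ⟨p + q, A.add_mem hp hq, E.M₁.add_mem hp0 hq0, by
          rw [map_add, smul_add, e, e']; rfl⟩
      zero_mem' := ⟨0, A.zero_mem, E.M₁.zero_mem, by rw [map_zero, smul_zero]; rfl⟩
      smul_mem' := by
        rintro c f ⟨p, hp, hp0, e⟩
        refine ⟨algebraMap k X.B c • p, A.smul_mem _ hp,
          E.smul₁ _ (X.B₁.algebraMap_mem c) _ hp0, ?_⟩
        funext i
        change T (-1) * θ (algebraMap k X.B c • p) i = c • (f : Fin r → k[T;T⁻¹]) i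
        rw [hθ, ← e, AlgHom.commutes]
        change T (-1) * (C c * θ p i) = c • (T (-1) * θ p i)
        rw [Algebra.smul_def]
        change _ = C c * _
        ring }
  have m0 : ∀ f : N, f ∈ N₀ ↔ ∃ p : P₂, (p : E.M) ∈ A ∧ (p : E.M) ∈ E.M₀ ∧
    θ p = (f : Fin r → k[T;T⁻¹]) := fun f => Iff.rfl
  have m1 : ∀ f : N, f ∈ N₁ ↔ ∃ p : P₂, (p : E.M) ∈ A ∧ (p : E.M) ∈ E.M₁ ∧
    (T (-1) : k[T;T⁻¹]) • θ p = (f : Fin r → k[T;T⁻¹]) := fun f => Iff.rfl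
  obtain ⟨s, τ, hτ, hτ0, hτ1⟩ := exists_layer (mulT r N) N₀ N₁
    (by
      rintro f hf
      obtain ⟨p, hp, hp0, e⟩ := (m0 f).1 hf
      refine (m0 _).2 ⟨(X.x : X.B) ^ 1 • p, A.smul_mem _ hp,
        E.smul₀ _ (X.B₀.pow_mem X.x_mem 1) _ hp0, ?_⟩
      rw [hx, e]; rfl)
    (by
      rintro f hf
      obtain ⟨p, hp, hp0, e⟩ := (m1 f).1 hf
      refine (m1 _).2 ⟨(X.w : X.B) ^ 1 • p, A.smul_mem _ hp,
        E.smul₁ _ (X.B₁.pow_mem X.w_mem 1) _ hp0, ?_⟩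
      rw [hw, smul_comm, e]; rfl)
    (by
      rintro ⟨f, hf⟩
      obtain ⟨p, hp, rfl⟩ := (hmem f).1 hf
      obtain ⟨n, hn⟩ := E.loc₀ (p : E.M)
      refine ⟨n, (m0 _).2 ⟨(X.x : X.B) ^ n • p, A.smul_mem _ hp, hn, ?_⟩⟩
      rw [mulT_iter, hx]; rfl)
    (by
      rintro ⟨f, hf⟩
      obtain ⟨p, hp, rfl⟩ := (hmem f).1 hf
      obtain ⟨n, hn⟩ := E.loc₁ (p : E.M)
      refine ⟨n + 1, (m1 _).2 ⟨(X.w : X.B) ^ n • p, A.smul_mem _ hp, hn, ?_⟩⟩
      rw [mulT_symm_iter, hw, smul_smul, ← T_add]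
      have e : (-1 + -(n : ℤ)) = -((n + 1 : ℕ) : ℤ) := by push_cast; ring
      rw [e]; rfl)
    (by
      rw [eq_bot_iff]
      rintro f ⟨h0, h1⟩
      obtain ⟨p, hp, hp0, e⟩ := (m0 f).1 h0
      obtain ⟨q, hq, hq0, e'⟩ := (m1 f).1 h1
      rw [Submodule.mem_bot]
      apply Subtype.ext
      funext i
      refine reg_inter ?_ ?_
      · rw [← e]; exact hreg0 p hp0 i
      · rw [← e']
        have h2 := T_mem_RegInf (-1) (hreg1 q hq0 i)
        rwa [zero_add] at h2)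
    (by
      rw [eq_top_iff]
      rintro ⟨f, hf⟩ -
      obtain ⟨p, hp, rfl⟩ := (hmem f).1 hf
      obtain ⟨a, ha, c, hc, haA, hcA, e⟩ := hA (p : E.M) ⟨hp, p.2⟩
      have e2 : p = (⟨a, haA.2⟩ : P₂) + (X.w : X.B) ^ 1 • (⟨c, hcA.2⟩ : P₂) := by
        apply Subtype.ext
        rw [pow_one]
        exact e
      refine Submodule.mem_sup.2 ⟨⟨θ ⟨a, haA.2⟩, (hmem _).2 ⟨_, haA.1, rfl⟩⟩,
        (m0 _).2 ⟨_, haA.1, ha, rfl⟩,
        ⟨θ ((X.w : X.B) ^ 1 • (⟨c, hcA.2⟩ : P₂)), (hmem _).2 ⟨_, A.smul_mem _ hcA.1, rfl⟩⟩,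
        (m1 _).2 ⟨⟨c, hcA.2⟩, hcA.1, hc, ?_⟩, ?_⟩
      · exact (hw 1 ⟨c, hcA.2⟩).symm
      · apply Subtype.ext
        change θ ⟨a, haA.2⟩ + θ ((X.w : X.B) ^ 1 • (⟨c, hcA.2⟩ : P₂)) = θ p
        rw [← map_add, ← e2])
    (by
      refine finite_const _ ?_
      rintro _ ⟨h0, g, hg, rfl⟩ i
      obtain ⟨p, hp, hp0, e⟩ := (m0 _).1 h0
      obtain ⟨q, hq, hq0, e'⟩ := (m1 _).1 hg
      constructor
      · rw [← e]; exact hreg0 p hp0 i
      · change T 1 * ((g : N) : Fin r → k[T;T⁻¹]) i ∈ RegInf k 0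
        rw [← e']
        change T 1 * (T (-1) * θ q i) ∈ RegInf k 0
        rw [← mul_assoc, ← T_add, add_neg_cancel, T_zero, one_mul]
        exact hreg1 q hq0 i)
  -- the layer map
  let θ' : (P₂.comap A.subtype : Submodule X.B A) →+ (Fin s → k[T;T⁻¹]) :=
    { toFun := fun p => τ ⟨θ ⟨((p : A) : E.M), p.2⟩, (hmem _).2 ⟨_, (p : A).2, rfl⟩⟩
      map_zero' := by
        have e : (⟨θ ⟨(((0 : (P₂.comap A.subtype : Submodule X.B A)) : A) : E.M),
            (0 : (P₂.comap A.subtype : Submodule X.B A)).2⟩, (hmem _).2 ⟨_, ((0 :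
            (P₂.comap A.subtype : Submodule X.B A)) : A).2, rfl⟩⟩ : N) = 0 :=
          Subtype.ext (map_zero θ)
        rw [e, map_zero]
      map_add' := by
        intro p q
        rw [← map_add]
        congr 1
        exact Subtype.ext (map_add θ ⟨((p : A) : E.M), p.2⟩ ⟨((q : A) : E.M), q.2⟩) }
  have hθ' : ∀ p, θ' p = τ ⟨θ ⟨((p : A) : E.M), p.2⟩, (hmem _).2 ⟨_, (p : A).2, rfl⟩⟩ :=
    fun p => rfl
  refine ⟨s, θ', ?_, ?_, ?_, ?_, ?_⟩
  · intro b p i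
    rw [hθ', hθ', ← linear_of_T τ hτ]
    have e : (⟨θ ⟨(((b • p : (P₂.comap A.subtype : Submodule X.B A)) : A) : E.M), (b • p).2⟩,
        (hmem _).2 ⟨_, ((b • p : (P₂.comap A.subtype : Submodule X.B A)) : A).2, rfl⟩⟩ : N)
        = X.res b • ⟨θ ⟨((p : A) : E.M), p.2⟩, (hmem _).2 ⟨_, (p : A).2, rfl⟩⟩ := by
      apply Subtype.ext
      funext j
      exact hθ b ⟨((p : A) : E.M), p.2⟩ j
    rw [e]
  · intro f
    obtain ⟨⟨g, hg⟩, rfl⟩ := τ.surjective f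
    obtain ⟨p, hp, rfl⟩ := (hmem g).1 hg
    exact ⟨⟨⟨(p : E.M), hp⟩, p.2⟩, rfl⟩
  · intro p
    rw [hθ', LinearEquiv.map_eq_zero_iff]
    constructor
    · intro h
      exact (hker ⟨((p : A) : E.M), p.2⟩).1 (congrArg Subtype.val h)
    · intro h
      exact Subtype.ext ((hker ⟨((p : A) : E.M), p.2⟩).2 h)
  · intro f
    constructor
    · rintro ⟨p, hp, rfl⟩
      rw [hθ']
      exact (hτ0 _).1 ((m0 _).2 ⟨⟨((p : A) : E.M), p.2⟩, (p : A).2, hp, rfl⟩)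
    · intro hf
      obtain ⟨g, rfl⟩ := τ.surjective f
      obtain ⟨p, hp, hp0, e⟩ := (m0 g).1 ((hτ0 g).2 hf)
      refine ⟨⟨⟨(p : E.M), hp⟩, p.2⟩, hp0, ?_⟩
      rw [hθ']
      congr 1
      exact Subtype.ext e
  · intro f
    constructor
    · rintro ⟨p, hp, rfl⟩ i
      have h1 : mulT r N (mulT r N |>.symm ⟨θ ⟨((p : A) : E.M), p.2⟩,
          (hmem _).2 ⟨_, (p : A).2, rfl⟩⟩) = ⟨θ ⟨((p : A) : E.M), p.2⟩,
          (hmem _).2 ⟨_, (p : A).2, rfl⟩⟩ := LinearEquiv.apply_symm_apply _ _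
      rw [hθ', ← h1, hτ]
      have h2 := (hτ1 ((mulT r N).symm ⟨θ ⟨((p : A) : E.M), p.2⟩,
          (hmem _).2 ⟨_, (p : A).2, rfl⟩⟩)).1
          ((m1 _).2 ⟨⟨((p : A) : E.M), p.2⟩, (p : A).2, hp, rfl⟩) i
      exact T_mem_RegInf 1 h2
    · intro hf
      obtain ⟨g, rfl⟩ := τ.surjective f
      have h1 : mulT r N ((mulT r N).symm g) = g := LinearEquiv.apply_symm_apply _ _
      have h2 : (mulT r N).symm g ∈ N₁ := by
        refine (hτ1 _).2 fun i => ?_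
        have h3 := hf i
        rw [← h1, hτ] at h3
        have h4 := T_mem_RegInf (-1) h3
        rwa [← mul_assoc, ← T_add, neg_add_cancel, T_zero, one_mul, zero_add] at h4
      obtain ⟨p, hp, hp0, e⟩ := (m1 _).1 h2
      refine ⟨⟨⟨(p : E.M), hp⟩, p.2⟩, hp0, ?_⟩
      rw [hθ']
      congr 1
      apply Subtype.ext
      have e2 := congrArg (fun f : Fin r → k[T;T⁻¹] => (T 1 : k[T;T⁻¹]) • f) e
      change (T 1 : k[T;T⁻¹]) • ((T (-1) : k[T;T⁻¹]) • θ p)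
        = (T 1 : k[T;T⁻¹]) • ((T (-1) : k[T;T⁻¹]) • (g : Fin r → k[T;T⁻¹])) at e2
      rwa [smul_smul, smul_smul, ← T_add, add_neg_cancel, T_zero, one_smul, one_smul] at e2

/-- Subobjects of iterated extensions of `𝒪_C` are iterated extensions of `𝒪_C`. -/
theorem loewy_sub {E : Sh X} {n : ℕ} (hE : Loewy E 0 n) {A : Submodule X.B E.M}
    (hA : PiSub E A) : Loewy (E.sub A) 0 n := by
  have hns := noSec hE
  obtain ⟨P, hP0, hPn, hP⟩ := hE
  refine ⟨fun j => (P j).comap A.subtype, ?_, ?_, ?_⟩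
  · change (P 0).comap A.subtype = ⊥
    rw [hP0, eq_bot_iff]
    intro p hp
    rw [Submodule.mem_bot]
    exact Subtype.ext ((Submodule.mem_bot X.B).1 hp)
  · change (P n).comap A.subtype = ⊤
    rw [hPn]; rfl
  · intro j hj
    exact ⟨fun p hp => (hP j hj).1 hp,
      isLayer_sub (hP j hj).2 (hA.inf hns (piSub_chain hP0 hP (j + 1) hj))⟩

end CV

end Pool.Agent.DWC
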